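import Mathlib

/-! The free product of a free group with a free monoid and the spectral gap of conjugation. -/

set_option autoImplicit false

noncomputable section

namespace Pool.Agent.H846Z.ZO

open FreeGroup

/-- the free group on two generators -/
abbrev G2 : Type := FreeGroup Bool

lemma reduce_snoc (v : Bool × Bool) (L : List (Bool × Bool)) (h : IsReduced L) :
    reduce (L ++ [v]) = L ++ [v] ∨ ∃ L', L = L' ++ [(v.1, !v.2)] ∧ reduce (L ++ [v]) = L' := by
  induction L with
  | nil => left; rfl
  | cons x l ih =>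
    have hl : IsReduced l := List.IsChain.tail h
    rw [List.cons_append, reduce.cons]
    rcases ih hl with h1 | ⟨L', h1, h2⟩
    · rw [h1]
      cases l with
      | nil =>
        by_cases hx : x.1 = v.1 ∧ x.2 = !v.2
        · right
          exact ⟨[], by simp [Prod.ext_iff, hx.1, hx.2], by simp [hx.1, hx.2]⟩
        · left; simp [hx]
      | cons y l =>
        left
        have := (isReduced_cons_cons.mp h).1
        have hx : ¬ (x.1 = y.1 ∧ x.2 = !y.2) := fun e => by
          have := this e.1; rw [this] at e; simp at e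
        simp [hx]
    · rw [h2]
      right
      refine ⟨x :: L', by simp [h1], ?_⟩
      cases L' with
      | nil => rfl
      | cons y l' =>
        rw [h1, List.cons_append] at h
        have := (isReduced_cons_cons.mp h).1
        have hx : ¬ (x.1 = y.1 ∧ x.2 = !y.2) := fun e => by
          have := this e.1; rw [this] at e; simp at e
        simp [hx]

lemma startsWith_mul_mk {w v : Bool × Bool} {g : G2} (hg : g ∈ startsWith w) (hv : v.1 ≠ w.1) :
    g * mk [v] ∈ startsWith w := by
  simp only [startsWith, Set.mem_ofPred_eq, toWord_mul, toWord_mk, reduce_singleton] at hg ⊢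
  rcases reduce_snoc v g.toWord isReduced_toWord with h | ⟨L', h1, h2⟩
  · rw [h]
    cases hw : g.toWord with
    | nil => simp [hw] at hg
    | cons x l => simpa [hw] using hg
  · rw [h2]
    cases L' with
    | nil =>
      rw [h1] at hg
      simp only [List.nil_append, List.getElem?_cons_zero, Option.some.injEq] at hg
      exact absurd (congrArg Prod.fst hg) hv
    | cons y l => simpa [h1] using hg

lemma inv_mk_single (v : Bool × Bool) : (mk [v] : G2)⁻¹ = mk [(v.1, !v.2)] := by
  simp [inv_mk, invRev]

lemma exists_startsWith {g : G2} (hg : g ≠ 1) : ∃ w, g ∈ startsWith w := by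
  cases hw : g.toWord with
  | nil => exact absurd (toWord_eq_nil_iff.mp hw) hg
  | cons x l => exact ⟨x, by simp [startsWith, hw]⟩

lemma startsWith_uniq {g : G2} {w w' : Bool × Bool} (h : g ∈ startsWith w)
    (h' : g ∈ startsWith w') : w = w' := by
  simp only [startsWith, Set.mem_ofPred_eq] at h h'
  rw [h] at h'
  exact Option.some.inj h'

/-- words `g₀ s g₁ s ⋯ s gₙ` -/
inductive PP : Type
  | base : G2 → PP
  | cons : G2 → PP → PP

/-- left multiplication -/
def lm (h : G2) : PP → PP
  | .base g => .base (h * g)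
  | .cons g p => .cons (h * g) p

/-- right multiplication -/
def rm (h : G2) : PP → PP
  | .base g => .base (g * h)
  | .cons g p => .cons g (rm h p)

/-- first syllable -/
def hd : PP → G2
  | .base g => g
  | .cons g _ => g

/-- conjugation -/
def cj (h : G2) (p : PP) : PP := lm h (rm h⁻¹ p)

lemma lm_lm (h k : G2) (p : PP) : lm h (lm k p) = lm (h * k) p := by
  cases p <;> simp [lm, mul_assoc]

lemma lm_one (p : PP) : lm 1 p = p := by cases p <;> simp [lm]

lemma lm_inj (h : G2) : Function.Injective (lm h) := fun p q e => by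
  have := congrArg (lm h⁻¹) e
  simpa [lm_lm, lm_one] using this

lemma rm_inj (h : G2) : Function.Injective (rm h) := by
  intro p
  induction p with
  | base g => intro q; cases q <;> simp [rm]
  | cons g p ih =>
    intro q
    cases q with
    | base k => simp [rm]
    | cons k q =>
      simp only [rm, PP.cons.injEq]
      exact fun e => ⟨e.1, ih e.2⟩

lemma cj_inj (h : G2) : Function.Injective (cj h) := (lm_inj h).comp (rm_inj h⁻¹)

lemma cj_starts (v : Bool × Bool) (p : PP) (hp : p ≠ .base 1)
    (h : ∀ w, hd p ∈ startsWith w → w.1 ≠ v.1) : hd (cj (mk [v]) p) ∈ startsWith v := by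
  cases p with
  | base g =>
    obtain ⟨w, hw⟩ := exists_startsWith (g := g) (fun e => hp (by rw [e]))
    have h1 := h w hw
    have h2 := startsWith_mul_mk (v := (v.1, !v.2)) hw h1.symm
    simp only [cj, rm, lm, hd, inv_mk_single]
    refine startsWith_mk_mul _ fun e => h1 ?_
    rw [startsWith_uniq h2 e]
  | cons g p =>
    simp only [cj, rm, lm, hd]
    exact startsWith_mk_mul _ fun e => h _ e rfl

/-- mass of a set -/
def mass (f : PP → ℂ) (S : Set PP) : ℝ := ∑' p, S.indicator (fun p => ‖f p‖ ^ 2) p

lemma mass_move {f : PP → ℂ} (hf : Summable fun p => ‖f p‖ ^ 2) {c : PP → PP}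
    (hc : Function.Injective c) (hd : Summable fun p => ‖f (c p) - f p‖ ^ 2) {S T : Set PP}
    (hST : ∀ p ∈ S, c p ∈ T) :
    mass f S ≤ 4 / 3 * mass f T + 4 * ∑' p, ‖f (c p) - f p‖ ^ 2 := by
  have h1 : Summable (T.indicator fun p => ‖f p‖ ^ 2) := hf.indicator T
  have h2 := tsum_comp_le_tsum_of_inj h1
    (fun p => Set.indicator_nonneg (fun _ _ => sq_nonneg _) p) hc
  have h3 : Summable ((T.indicator fun p => ‖f p‖ ^ 2) ∘ c) := h1.comp_injective hc
  have h4 : mass f S ≤ ∑' p, (4 / 3 * ((T.indicator fun p => ‖f p‖ ^ 2) ∘ c) p +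
      4 * ‖f (c p) - f p‖ ^ 2) := by
    refine (hf.indicator S).tsum_le_tsum (fun p => ?_) ((h3.mul_left _).add (hd.mul_left _))
    by_cases hp : p ∈ S
    · simp only [Set.indicator_of_mem hp, Function.comp, Set.indicator_of_mem (hST p hp)]
      have a1 : ‖f p‖ ≤ ‖f (c p)‖ + ‖f (c p) - f p‖ := by
        simpa using norm_sub_le (f (c p)) (f (c p) - f p)
      have a2 := norm_nonneg (f p)
      nlinarith [sq_nonneg (‖f (c p)‖ - 3 * ‖f (c p) - f p‖)]
    · rw [Set.indicator_of_notMem hp]
      have : 0 ≤ ((T.indicator fun p => ‖f p‖ ^ 2) ∘ c) p :=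
        Set.indicator_nonneg (fun _ _ => sq_nonneg _) _
      positivity
  rw [(h3.mul_left _).tsum_add (hd.mul_left _), tsum_mul_left, tsum_mul_left] at h4
  unfold mass at *
  linarith

lemma mass_union {f : PP → ℂ} (hf : Summable fun p => ‖f p‖ ^ 2) {S T : Set PP}
    (h : Disjoint S T) : mass f (S ∪ T) = mass f S + mass f T := by
  unfold mass
  rw [← (hf.indicator S).tsum_add (hf.indicator T), Set.indicator_union_of_disjoint h]

lemma mass_mono {f : PP → ℂ} (hf : Summable fun p => ‖f p‖ ^ 2) {S T : Set PP} (h : S ⊆ T) :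
    mass f S ≤ mass f T :=
  (hf.indicator S).tsum_le_tsum
    (fun p => Set.indicator_le_indicator_of_subset h (fun _ => sq_nonneg _) p) (hf.indicator T)

/-- the three conjugating elements -/
def gen : Fin 3 → G2 := ![mk [(true, true)], mk [(false, true)], mk [(false, false)]]

theorem gap {f : PP → ℂ} (hf : Summable fun p => ‖f p‖ ^ 2)
    (hD : ∀ i, Summable fun p => ‖f (cj (gen i) p) - f p‖ ^ 2) :
    mass f {p | p ≠ .base 1} ≤ 60 * ∑ i, ∑' p, ‖f (cj (gen i) p) - f p‖ ^ 2 := by
  let F : Set PP := {p | ∃ e, hd p ∈ startsWith (true, e)}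
  let C : Set PP := {p | p ≠ .base 1 ∧ p ∉ F}
  have hF : ∀ p ∈ F, p ≠ .base 1 := by
    rintro p ⟨e, he⟩ rfl
    exact startsWith.ne_one _ he rfl
  have h0 : {p | p ≠ .base 1} = F ∪ C := by
    ext p
    simp only [Set.mem_ofPred_eq, Set.mem_union, C]
    have := hF p
    tauto
  have h1 := mass_move hf (cj_inj _) (hD 0) (S := C) (T := F) fun p hp =>
    ⟨true, cj_starts (true, true) p hp.1 fun w hw e => hp.2 ⟨w.2, by
      have : w = (true, w.2) := Prod.ext e rfl
      rwa [← this]⟩⟩
  have h2 : ∀ e, ∀ p ∈ F, hd (cj (mk [(false, e)]) p) ∈ startsWith (false, e) := by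
    intro e p hp
    refine cj_starts (false, e) p (hF p hp) fun w hw => ?_
    obtain ⟨e', he'⟩ := hp
    rw [startsWith_uniq hw he']; simp
  have h3 := mass_move hf (cj_inj _) (hD 1) (S := F) (T := {p | hd p ∈ startsWith (false, true)})
    (h2 true)
  have h4 := mass_move hf (cj_inj _) (hD 2) (S := F) (T := {p | hd p ∈ startsWith (false, false)})
    (h2 false)
  have h5 := mass_union hf (S := {p | hd p ∈ startsWith (false, true)})
    (T := {p | hd p ∈ startsWith (false, false)}) (Set.disjoint_left.mpr fun p a b => by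
      simpa using startsWith_uniq a b)
  have h6 := mass_mono hf (S := {p | hd p ∈ startsWith (false, true)} ∪
      {p | hd p ∈ startsWith (false, false)}) (T := C) (by
    have : ∀ e p, hd p ∈ startsWith (false, e) → p ∈ C := by
      intro e p hp
      refine ⟨?_, ?_⟩
      · rintro rfl; exact startsWith.ne_one _ hp rfl
      · rintro ⟨e', he'⟩; simpa using startsWith_uniq hp he'
    rintro p (hp | hp)
    · exact this _ p hp
    · exact this _ p hp)
  rw [h0, mass_union hf (Set.disjoint_left.mpr fun p a b => b.2 a), Fin.sum_univ_three]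
  have d : ∀ i, 0 ≤ ∑' p, ‖f (cj (gen i) p) - f p‖ ^ 2 := fun i => tsum_nonneg fun _ => sq_nonneg _
  linarith [d 0, d 1, d 2]

end Pool.Agent.H846Z.ZO
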