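import Pool.Agent.H846Z.ZO.Inf
import Pool.Agent.H846Z.ZO.Words

/-! The reduced C*-algebra of the monoid `F₂ * ℕ`. -/

set_option autoImplicit false
set_option linter.style.haveILetI false

open scoped ComplexOrder ComplexConjugate InnerProductSpace Classical
open Filter Topology

noncomputable section

namespace Pool.Agent.H846Z.ZO

/-- the elements of the monoid in an algebra -/
def LP {A : Type} [CStarAlgebra A] (u : G2 →* A) (s : A) : PP → A
  | .base g => u g
  | .cons g p => u g * s * LP u s p

lemma LP_lm {A : Type} [CStarAlgebra A] (u : G2 →* A) (s : A) (h : G2) (p : PP) :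
    LP u s (lm h p) = u h * LP u s p := by
  cases p <;> simp [LP, lm, mul_assoc]

lemma LP_rm {A : Type} [CStarAlgebra A] (u : G2 →* A) (s : A) (h : G2) (p : PP) :
    LP u s (rm h p) = LP u s p * u h := by
  induction p with
  | base g => simp [LP, rm]
  | cons g p ih => simp [LP, rm, ih, mul_assoc]

/-- concatenation -/
def cat : PP → PP → PP
  | .base g, q => lm g q
  | .cons g p, q => .cons g (cat p q)

lemma LP_cat {A : Type} [CStarAlgebra A] (u : G2 →* A) (s : A) (p q : PP) :
    LP u s (cat p q) = LP u s p * LP u s q := by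
  induction p with
  | base g => simp [LP, cat, LP_lm]
  | cons g p ih => simp [LP, cat, ih, mul_assoc]

/-- the relations -/
structure KD {A : Type} [CStarAlgebra A] (φ : A →ₗ[ℂ] ℂ) (u : G2 →* A) (s : A) : Prop where
  st : IsState φ
  fa : Faith φ
  ustar : ∀ g, star (u g) = u g⁻¹
  rel : ∀ g, star s * u g * s = if g = 1 then 1 else 0
  orth : ∀ p q, φ (star (LP u s p) * LP u s q) = if p = q then 1 else 0
  vac : ∀ g x, φ (u g * s * x) = 0
  dn : Dn (fun pq : PP × PP => LP u s pq.1 * star (LP u s pq.2))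

/-- the Hilbert space -/
abbrev HP : Type := lp (fun _ : PP => ℂ) 2

/-- basis vectors -/
def dl (p : PP) : HP := lp.single 2 p 1

lemma inner_dl (p q : PP) : ⟪dl p, dl q⟫_ℂ = if p = q then 1 else 0 := by
  unfold dl
  rw [lp.inner_single_left]
  by_cases h : p = q
  · subst h; simp
  · simp [h]

lemma vec_ext (ξ : HP) (h : ∀ p, ⟪dl p, ξ⟫_ℂ = 0) : ξ = 0 := by
  ext p
  have := h p
  unfold dl at this
  rw [lp.inner_single_left] at this
  simpa using this

lemma op_ext (T : HP →L[ℂ] HP) (h : ∀ p, T (dl p) = 0) : T = 0 := by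
  ext1 ξ
  have h1 := (lp.hasSum_single (p := 2) (by simp) ξ).mapL T
  have h2 : ∀ p, T (lp.single 2 p (ξ p)) = 0 := by
    intro p
    have : (lp.single 2 p (ξ p) : HP) = ξ p • dl p := by
      unfold dl
      rw [← lp.single_smul]; simp
    rw [this, map_smul, h, smul_zero]
  simp only [h2] at h1
  exact h1.unique hasSum_zero

lemma exists_V (f : PP → PP) (hf : Function.Injective f) :
    ∃ V : HP →L[ℂ] HP, star V * V = 1 ∧ ∀ p, V (dl p) = dl (f p) := by
  have ho : Orthonormal ℂ (fun p => dl (f p)) := by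
    rw [orthonormal_iff_ite]
    intro p q
    rw [inner_dl]; simp [hf.eq_iff]
  let V := ho.orthogonalFamily.linearIsometry
  refine ⟨V.toContinuousLinearMap, ?_, fun p => ?_⟩
  · exact V.adjoint_comp_self
  · exact (ho.orthogonalFamily.linearIsometry_apply_single (i := p) (1 : ℂ)).trans (by simp)

theorem exists_KD : ∃ (A : Type) (_ : CStarAlgebra A) (φ : A →ₗ[ℂ] ℂ) (u : G2 →* A) (s : A),
    KD φ u s := by
  choose U hU1 hU2 using fun g => exists_V (lm g) (lm_inj g)
  obtain ⟨S, hS1, hS2⟩ := exists_V (PP.cons 1) (fun p q e => by simpa using e)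
  let U' : G2 →* (HP →L[ℂ] HP) :=
    { toFun := U
      map_one' := sub_eq_zero.mp (op_ext _ fun p => by simp [hU2, lm_one])
      map_mul' := fun g h => sub_eq_zero.mp (op_ext _ fun p => by simp [hU2, lm_lm]) }
  have hU' : ∀ g p, U' g (dl p) = dl (lm g p) := hU2
  have hUs : ∀ g, star (U' g) = U' g⁻¹ := by
    intro g
    have : star (U' g) * U' g = 1 := hU1 g
    calc star (U' g) = star (U' g) * (U' g * U' g⁻¹) := by rw [← map_mul]; simp
      _ = U' g⁻¹ := by rw [← mul_assoc, this, one_mul]
  have hrel : ∀ g, star S * U' g * S = if g = 1 then 1 else 0 := by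
    intro g
    split_ifs with hg
    · simp [hg, hS1]
    · refine op_ext _ fun q => vec_ext _ fun p => ?_
      rw [mul_apply_eq_comp, mul_apply_eq_comp, ContinuousLinearMap.star_eq_adjoint,
        ContinuousLinearMap.adjoint_inner_right, hS2, hS2, hU', inner_dl]
      simp [lm, Ne.symm hg]
  have hL : ∀ p, LP U' S p (dl (.base 1)) = dl p := by
    intro p
    induction p with
    | base g => simp [LP, hU', lm]
    | cons g p ih => simp [LP, ih, hS2, hU', lm]
  let A := (StarAlgebra.adjoin ℂ (Set.range U' ∪ {S})).topologicalClosure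
  haveI : IsClosed (A : Set (HP →L[ℂ] HP)) := StarSubalgebra.isClosed_topologicalClosure _
  have hm : ∀ g, U' g ∈ A := fun g => StarSubalgebra.le_topologicalClosure _
    (StarAlgebra.subset_adjoin _ _ (Or.inl ⟨g, rfl⟩))
  have hmS : S ∈ A := StarSubalgebra.le_topologicalClosure _
    (StarAlgebra.subset_adjoin _ _ (Or.inr rfl))
  let u : G2 →* A := U'.codRestrict A.toSubalgebra.toSubsemiring.toSubmonoid hm
  let s : A := ⟨S, hmS⟩
  have hLP : ∀ p, ((LP u s p : A) : HP →L[ℂ] HP) = LP U' S p := by
    intro p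
    induction p with
    | base g => rfl
    | cons g p ih => simp only [LP, MulMemClass.coe_mul, ih]; rfl
  let φ : A →ₗ[ℂ] ℂ :=
    { toFun := fun t => ⟪dl (.base 1), (t : HP →L[ℂ] HP) (dl (.base 1))⟫_ℂ
      map_add' := fun s t => by simp
      map_smul' := fun c t => by simp }
  have hφ : ∀ s t : A, φ (star s * t) =
      ⟪(s : HP →L[ℂ] HP) (dl (.base 1)), (t : HP →L[ℂ] HP) (dl (.base 1))⟫_ℂ := by
    intro s t
    show ⟪dl (.base 1), (star (s : HP →L[ℂ] HP) * (t : HP →L[ℂ] HP)) (dl (.base 1))⟫_ℂ = _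
    rw [mul_apply_eq_comp, ContinuousLinearMap.star_eq_adjoint,
      ContinuousLinearMap.adjoint_inner_right]
  refine ⟨A, inferInstance, φ, u, s, ⟨?_, fun x => ?_⟩, fun t ht => ?_,
    fun g => Subtype.ext (hUs g), fun g => Subtype.ext ?_, fun p q => ?_, fun g x => ?_, ?_⟩
  · show ⟪dl (.base 1), dl (.base 1)⟫_ℂ = 1
    rw [inner_dl, if_pos rfl]
  · rw [hφ, inner_self_eq_norm_sq_to_K]
    simp only [Complex.coe_algebraMap]
    positivity
  · refine Subtype.ext (op_ext _ fun q => vec_ext _ fun p => ?_)
    have := ht (star (LP u s p)) (LP u s q)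
    rw [mul_assoc, hφ, MulMemClass.coe_mul, mul_apply_eq_comp, hLP, hLP, hL, hL] at this
    exact this
  · refine (hrel g).trans ?_
    split_ifs <;> rfl
  · rw [hφ, hLP, hLP, hL, hL, inner_dl]
  · have : ((star (u g * s) : A) : HP →L[ℂ] HP) (dl (.base 1)) = 0 := by
      refine vec_ext _ fun p => ?_
      show ⟪dl p, (star (U' g * S)) (dl (.base 1))⟫_ℂ = 0
      rw [ContinuousLinearMap.star_eq_adjoint, ContinuousLinearMap.adjoint_inner_right,
        mul_apply_eq_comp, hS2, hU', inner_dl]
      simp [lm]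
    rw [← star_star (u g * s), hφ, this, inner_zero_left]
  · let W := Submodule.span ℂ (Set.range fun pq : PP × PP => LP U' S pq.1 * star (LP U' S pq.2))
    have hW : ∀ a : HP →L[ℂ] HP, (∀ p q, a * (LP U' S p * star (LP U' S q)) ∈ W) →
        ∀ x ∈ W, a * x ∈ W := by
      intro a ha x hx
      induction hx using Submodule.span_induction with
      | mem x hx => obtain ⟨p, rfl⟩ := hx; exact ha _ _
      | zero => simp
      | add y z _ _ hy hz => rw [mul_add]; exact add_mem hy hz
      | smul c y _ hy => rw [mul_smul_comm]; exact Submodule.smul_mem _ c hy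
    have hmem : ∀ p q, LP U' S p * star (LP U' S q) ∈ W := fun p q =>
      Submodule.subset_span ⟨(p, q), rfl⟩
    have hU : ∀ g, ∀ x ∈ W, U' g * x ∈ W := fun g => hW _ fun p q => by
      rw [← mul_assoc, ← LP_lm]; exact hmem _ _
    have h1 : ∀ a ∈ StarAlgebra.adjoin ℂ (Set.range U' ∪ {S}),
        (∀ x ∈ W, a * x ∈ W) ∧ ∀ x ∈ W, star a * x ∈ W := by
      intro a ha
      induction ha using StarAlgebra.adjoin_induction with
      | mem x hx =>
        rcases hx with ⟨g, rfl⟩ | rfl
        · exact ⟨hU g, by rw [hUs]; exact hU _⟩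
        · refine ⟨hW _ fun p q => ?_, hW _ fun p q => ?_⟩
          · have := hmem (.cons 1 p) q
            simpa [LP, mul_assoc] using this
          · cases p with
            | base g =>
              have := hmem (.base 1) (cat q (.cons g⁻¹ (.base 1)))
              simpa [LP, LP_cat, mul_assoc, hUs] using this
            | cons g p =>
              have : star x * (LP U' x (.cons g p) * star (LP U' x q)) =
                  (star x * U' g * x) * (LP U' x p * star (LP U' x q)) := by
                simp [LP, mul_assoc]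
              rw [this, hrel]
              split_ifs
              · rw [one_mul]; exact hmem _ _
              · simp
      | algebraMap r =>
        simp only [Algebra.algebraMap_eq_smul_one, star_smul, star_one, smul_mul_assoc, one_mul]
        exact ⟨fun x hx => W.smul_mem _ hx, fun x hx => W.smul_mem _ hx⟩
      | add a b _ _ ha hb =>
        simp only [star_add, add_mul]
        exact ⟨fun x hx => add_mem (ha.1 x hx) (hb.1 x hx),
          fun x hx => add_mem (ha.2 x hx) (hb.2 x hx)⟩
      | mul a b _ _ ha hb =>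
        simp only [star_mul, mul_assoc]
        exact ⟨fun x hx => ha.1 _ (hb.1 x hx), fun x hx => hb.2 _ (ha.2 x hx)⟩
      | star a _ ha => rw [star_star]; exact ha.symm
    rintro ⟨t, ht⟩
    rw [closure_subtype]
    refine closure_mono ?_ ht
    intro x hx
    have h2 : x ∈ W := by
      have := (h1 x hx).1 1 (by simpa [LP] using hmem (.base 1) (.base 1))
      simpa using this
    have : W = (Submodule.span ℂ (Set.range fun pq : PP × PP =>
        LP u s pq.1 * star (LP u s pq.2))).map A.subtype.toAlgHom.toLinearMap := by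
      rw [Submodule.map_span, ← Set.range_comp]
      refine congrArg (fun f => Submodule.span ℂ (Set.range f)) ?_
      funext pq
      simp [← hLP]
    rw [this] at h2
    exact h2

section

variable {A : Type} [CStarAlgebra A] {φ : A →ₗ[ℂ] ℂ} {u : G2 →* A} {s : A}

lemma KD.phi_u (h : KD φ u s) (g : G2) : φ (u g) = if g = 1 then 1 else 0 := by
  have := h.orth (.base 1) (.base g)
  simpa [LP, eq_comm] using this

lemma KD.vac' (h : KD φ u s) (g : G2) (x : A) : φ (x * star (u g * s)) = 0 := by
  have := h.st.star_eq (u g * s * star x)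
  rw [h.vac] at this
  simpa using this

/-- the excising isometries -/
def vv (u : G2 →* A) (s : A) (k : ℕ) : A := u (FreeGroup.of true ^ k) * s

lemma of_pow_inj : Function.Injective fun k : ℕ => (FreeGroup.of true ^ k : G2) := by
  intro j k e
  have := congrArg FreeGroup.norm e
  simpa [FreeGroup.norm_of_pow] using this

lemma KD.vv_u (h : KD φ u s) (k : ℕ) (g : G2) :
    star (vv u s k) * (u g * s) = if FreeGroup.of true ^ k = g then 1 else 0 := by
  rw [vv, star_mul, h.ustar, mul_assoc, ← mul_assoc (u _), ← map_mul, ← mul_assoc, h.rel]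
  simp only [inv_mul_eq_one]

lemma KD.vv_orth (h : KD φ u s) (j k : ℕ) :
    star (vv u s j) * vv u s k = if j = k then 1 else 0 := by
  rw [show vv u s k = u (FreeGroup.of true ^ k) * s from rfl, h.vv_u]
  simp only [of_pow_inj.eq_iff]

lemma ev_ne (g : G2) : ∀ᶠ k : ℕ in atTop, FreeGroup.of true ^ k ≠ g := by
  filter_upwards [eventually_gt_atTop g.norm] with k hk e
  rw [← e, FreeGroup.norm_of_pow] at hk
  exact lt_irrefl _ hk

lemma KD.excise (h : KD φ u s) (p q : PP) : ∀ᶠ k : ℕ in atTop,
    star (vv u s k) * (LP u s p * star (LP u s q)) * vv u s k =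
      φ (LP u s p * star (LP u s q)) • 1 := by
  cases p with
  | cons g p =>
    filter_upwards [ev_ne g] with k hk
    rw [LP, mul_assoc (u g * s), h.vac, ← mul_assoc, h.vv_u, if_neg hk]; simp
  | base g =>
    cases q with
    | cons g' q =>
      filter_upwards [ev_ne g'] with k hk
      have := congrArg star (h.vv_u k g')
      rw [if_neg hk, star_mul, star_star, star_zero] at this
      rw [LP, LP, star_mul, ← mul_assoc (u g), h.vac', mul_assoc, mul_assoc, this]; simp
    | base g' =>
      refine Eventually.of_forall fun k => ?_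
      rw [LP, LP, h.ustar, ← map_mul, h.phi_u, mul_assoc, vv, ← mul_assoc (u _), ← map_mul,
        ← vv, h.vv_u]
      by_cases e : g * g'⁻¹ = 1
      · simp [e]
      · rw [if_neg e, if_neg (fun e' => e (by simpa using e'.symm))]; simp

lemma KD.inv (h : KD φ u s) (g : G2) (x : A) : φ (u g * x * u g⁻¹) = φ x := by
  refine h.dn.ext (h.st.twL (u g) (u g⁻¹)) h.st.clm ?_ x
  rintro ⟨p, q⟩
  simp only [IsState.twL_apply, IsState.clm_apply]
  rw [← h.ustar, ← mul_assoc, mul_assoc (u g * _), ← star_mul, ← LP_lm, ← LP_lm]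
  cases p with
  | cons k p => simp only [lm, LP, mul_assoc (u _ * s), h.vac]
  | base k =>
    cases q with
    | cons k' q => simp only [lm, LP, star_mul (u _ * s), ← mul_assoc, h.vac']
    | base k' =>
      simp only [lm, LP, h.ustar, ← map_mul, h.phi_u]
      simp only [mul_inv_eq_one, mul_right_inj]

lemma KD.nn_conj (h : KD φ u s) (g : G2) (x : A) : nn φ (u g * x * u g⁻¹) = nn φ x := by
  unfold nn
  rw [← h.inv g (star x * x)]
  congr 3
  simp only [star_mul, h.ustar, inv_inv, mul_assoc]
  rw [← mul_assoc (u g⁻¹) (u g), ← map_mul]; simp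

lemma IsState.nn_neg (_h : IsState φ) (x : A) : nn φ (-x) = nn φ x := by simp [nn]

lemma IsState.nn_smul (h : IsState φ) (c : ℂ) (x : A) : nn φ (c • x) ≤ ‖c‖ * nn φ x := by
  haveI : Nontrivial A := ⟨⟨1, 0, fun e => by simpa [e] using h.one⟩⟩
  have h1 := h.nn_mul (c • 1) x
  rw [smul_mul_assoc, one_mul, norm_smul] at h1
  simpa using h1

lemma IsState.nn_congr (h : IsState φ) {x y : A} (e : nn φ (x - y) = 0) : nn φ x = nn φ y := by
  have h1 := h.nn_add y (x - y)
  have h2 := h.nn_add x (-(x - y))
  rw [h.nn_neg, e] at h2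
  rw [e] at h1
  simp only [add_sub_cancel, add_zero, neg_sub] at h1 h2
  linarith

lemma KD.nn_lc (h : KD φ u s) (ξ : PP →₀ ℂ) :
    nn φ (Finsupp.linearCombination ℂ (LP u s) ξ) ^ 2 = ∑' p, ‖ξ p‖ ^ 2 := by
  rw [tsum_eq_sum (s := ξ.support) (fun p hp => by simp [Finsupp.notMem_support_iff.mp hp])]
  apply Complex.ofReal_injective
  rw [← h.st.nn_sq', form_lc]
  push_cast
  refine Finset.sum_congr rfl fun p hp => ?_
  simp only [h.orth]
  rw [Finset.sum_eq_single p (fun q _ hq => by simp [hq.symm]) (fun e => absurd hp e)]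
  simp [Complex.conj_mul']

lemma fs_summable (ξ : PP →₀ ℂ) : Summable fun p => ‖ξ p‖ ^ 2 :=
  summable_of_ne_finset_zero (s := ξ.support)
    (fun p hp => by simp [Finsupp.notMem_support_iff.mp hp])

lemma KD.gap_lc (h : KD φ u s) (ξ : PP →₀ ℂ) :
    nn φ (Finsupp.linearCombination ℂ (LP u s) ξ -
      φ (Finsupp.linearCombination ℂ (LP u s) ξ) • 1) ^ 2 ≤
    60 * ∑ i, nn φ (u (gen i) * Finsupp.linearCombination ℂ (LP u s) ξ * u (gen i)⁻¹ -
      Finsupp.linearCombination ℂ (LP u s) ξ) ^ 2 := by
  have h1 : φ (Finsupp.linearCombination ℂ (LP u s) ξ) = ξ (.base 1) := by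
    have : ∀ p, φ (LP u s p) = if PP.base 1 = p then 1 else 0 := fun p => by
      simpa [LP] using h.orth (.base 1) p
    simp only [Finsupp.linearCombination_apply, Finsupp.sum, map_sum, map_smul, this, smul_eq_mul,
      mul_ite, mul_one, mul_zero, Finset.sum_ite_eq]
    split_ifs with e
    · rfl
    · exact (Finsupp.notMem_support_iff.mp e).symm
  have h2 : Finsupp.linearCombination ℂ (LP u s) ξ -
      φ (Finsupp.linearCombination ℂ (LP u s) ξ) • 1 =
      Finsupp.linearCombination ℂ (LP u s) (ξ - Finsupp.single (.base 1) (ξ (.base 1))) := by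
    rw [h1, map_sub]; simp [LP]
  have h3 : ∀ g, u g * Finsupp.linearCombination ℂ (LP u s) ξ * u g⁻¹ -
      Finsupp.linearCombination ℂ (LP u s) ξ =
      Finsupp.linearCombination ℂ (LP u s) (ξ.mapDomain (cj g) - ξ) := by
    intro g
    rw [map_sub, Finsupp.linearCombination_mapDomain]
    simp [Finsupp.linearCombination_apply, Finsupp.sum, Finset.mul_sum, Finset.sum_mul, cj, LP_lm,
      LP_rm, mul_assoc]
  have h4 : ∀ g, (fun p => ‖ξ (cj g p) - ξ p‖ ^ 2) =
      (fun p => ‖(ξ.mapDomain (cj g) - ξ) p‖ ^ 2) ∘ cj g := by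
    intro g
    funext p
    simp [Finsupp.mapDomain_apply (cj_inj g), norm_sub_rev]
  have h5 := gap (fs_summable ξ) (fun i => by
    rw [h4]; exact (fs_summable _).comp_injective (cj_inj _))
  simp only [h2, h3, h.nn_lc]
  refine le_trans (le_of_eq ?_) (h5.trans ?_)
  · refine tsum_congr fun p => ?_
    by_cases e : p = .base 1
    · subst e; simp
    · simp [e]
  · refine mul_le_mul_of_nonneg_left (Finset.sum_le_sum fun i _ => ?_) (by norm_num)
    rw [h4]
    exact tsum_comp_le_tsum_of_inj (fs_summable _) (fun _ => sq_nonneg _) (cj_inj _)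

theorem KD.gap (h : KD φ u s) (a : A) :
    nn φ (a - φ a • 1) ^ 2 ≤ 60 * ∑ i, nn φ (u (gen i) * a * u (gen i)⁻¹ - a) ^ 2 := by
  have hc := h.st.cont
  have hc' := h.st.cont_nn
  have h1 : (Submodule.span ℂ (Set.range fun pq : PP × PP => LP u s pq.1 * star (LP u s pq.2)) :
      Set A) ⊆ {a | nn φ (a - φ a • 1) ^ 2 ≤
        60 * ∑ i, nn φ (u (gen i) * a * u (gen i)⁻¹ - a) ^ 2} := by
    intro a ha
    have h2 : ∃ ξ, nn φ (a - Finsupp.linearCombination ℂ (LP u s) ξ) = 0 := by
      induction ha using Submodule.span_induction with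
      | mem x hx =>
        obtain ⟨⟨p, q⟩, rfl⟩ := hx
        cases q with
        | base g => exact ⟨Finsupp.single (rm g⁻¹ p) 1, by simp [LP, LP_rm, h.ustar, nn]⟩
        | cons g q =>
          refine ⟨0, ?_⟩
          simp only [map_zero, sub_zero, nn, LP, star_mul (LP u s p), star_star,
            mul_assoc (u g * s), h.vac]
          simp
      | zero => exact ⟨0, by simp [nn]⟩
      | add x y _ _ hx hy =>
        obtain ⟨ξ, hξ⟩ := hx
        obtain ⟨η, hη⟩ := hy
        refine ⟨ξ + η, le_antisymm ?_ (nn_nonneg _)⟩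
        have := h.st.nn_add (x - Finsupp.linearCombination ℂ (LP u s) ξ)
          (y - Finsupp.linearCombination ℂ (LP u s) η)
        rw [hξ, hη, add_zero] at this
        refine le_trans (le_of_eq ?_) this
        congr 1
        rw [map_add]; abel
      | smul c x _ hx =>
        obtain ⟨ξ, hξ⟩ := hx
        refine ⟨c • ξ, le_antisymm ?_ (nn_nonneg _)⟩
        have := h.st.nn_smul c (x - Finsupp.linearCombination ℂ (LP u s) ξ)
        rw [hξ, mul_zero] at this
        rw [map_smul, ← smul_sub]
        exact this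
    obtain ⟨ξ, hξ⟩ := h2
    have h3 := h.gap_lc ξ
    generalize Finsupp.linearCombination ℂ (LP u s) ξ = b at hξ h3
    have h4 : φ a = φ b := by
      have := h.st.cs (a - b) 1
      rw [hξ, star_one, one_mul, mul_zero, map_sub] at this
      exact sub_eq_zero.mp (norm_le_zero_iff.mp this)
    have h5 : nn φ (a - φ a • 1) = nn φ (b - φ b • 1) :=
      h.st.nn_congr (by rw [h4]; simpa using hξ)
    have h6 : ∀ g, nn φ (u g * a * u g⁻¹ - a) = nn φ (u g * b * u g⁻¹ - b) := by
      intro g
      refine h.st.nn_congr (le_antisymm ?_ (nn_nonneg _))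
      have := h.st.nn_add (u g * (a - b) * u g⁻¹) (-(a - b))
      rw [h.nn_conj, h.st.nn_neg, hξ, add_zero] at this
      refine le_trans (le_of_eq ?_) this
      congr 1
      noncomm_ring
    simp only [Set.mem_ofPred_eq, h5, h6]
    exact h3
  exact closure_minimal h1 (isClosed_le (by fun_prop) (by fun_prop)) (h.dn a)

end

end Pool.Agent.H846Z.ZO
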