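import Mathlib

/-! States, GNS seminorms, dense spans and the Schur product lemma. -/

set_option autoImplicit false
set_option linter.style.haveILetI false

open scoped ComplexOrder ComplexConjugate InnerProductSpace

noncomputable section

namespace Pool.Agent.H846Z.ZO

/-- states -/
structure IsState {A : Type} [CStarAlgebra A] (φ : A →ₗ[ℂ] ℂ) : Prop where
  one : φ 1 = 1
  pos : ∀ x, 0 ≤ φ (star x * x)

/-- the GNS representation is faithful -/
def Faith {A : Type} [CStarAlgebra A] (φ : A →ₗ[ℂ] ℂ) : Prop :=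
  ∀ t, (∀ x y, φ (x * t * y) = 0) → t = 0

/-- the GNS seminorm -/
def nn {A : Type} [CStarAlgebra A] (φ : A →ₗ[ℂ] ℂ) (x : A) : ℝ := √(φ (star x * x)).re

section state

variable {A : Type} [CStarAlgebra A] {φ : A →ₗ[ℂ] ℂ}

/-- a state as a positive linear map -/
def IsState.plm (h : IsState φ) :
    letI := CStarAlgebra.spectralOrder A
    A →ₚ[ℂ] ℂ :=
  letI := CStarAlgebra.spectralOrder A
  haveI := CStarAlgebra.spectralOrderedRing A
  PositiveLinearMap.mk₀ φ (fun a ha => by
    obtain ⟨b, rfl⟩ := CStarAlgebra.nonneg_iff_eq_star_mul_self.mp ha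
    exact h.pos b)

lemma nn_nonneg (x : A) : 0 ≤ nn φ x := Real.sqrt_nonneg _

lemma IsState.nn_sq (h : IsState φ) (x : A) : nn φ x ^ 2 = (φ (star x * x)).re :=
  Real.sq_sqrt (h.pos x).1

lemma IsState.nn_sq' (h : IsState φ) (x : A) : φ (star x * x) = ((nn φ x ^ 2 : ℝ) : ℂ) := by
  rw [h.nn_sq]
  exact Complex.ext (by simp) (by simpa using (h.pos x).2.symm)

lemma IsState.cs (h : IsState φ) (x y : A) : ‖φ (star y * x)‖ ≤ nn φ y * nn φ x := by
  letI := CStarAlgebra.spectralOrder A
  haveI := CStarAlgebra.spectralOrderedRing A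
  exact norm_inner_le_norm (𝕜 := ℂ) (h.plm.toPreGNS y) (h.plm.toPreGNS x)

lemma IsState.nn_mul (h : IsState φ) (a x : A) : nn φ (a * x) ≤ ‖a‖ * nn φ x := by
  letI := CStarAlgebra.spectralOrder A
  haveI := CStarAlgebra.spectralOrderedRing A
  have h1 := (h.plm.leftMulMapPreGNS a).le_opNorm (h.plm.toPreGNS x)
  have h2 : ‖h.plm.leftMulMapPreGNS a‖ ≤ ‖a‖ :=
    LinearMap.mkContinuous_norm_le _ (norm_nonneg a) _
  exact h1.trans (mul_le_mul_of_nonneg_right h2 (norm_nonneg _))

lemma IsState.nn_add (h : IsState φ) (x y : A) : nn φ (x + y) ≤ nn φ x + nn φ y := by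
  letI := CStarAlgebra.spectralOrder A
  haveI := CStarAlgebra.spectralOrderedRing A
  exact norm_add_le (h.plm.toPreGNS x) (h.plm.toPreGNS y)

lemma IsState.star_eq (h : IsState φ) (x : A) : φ (star x) = conj (φ x) := by
  letI := CStarAlgebra.spectralOrder A
  haveI := CStarAlgebra.spectralOrderedRing A
  exact map_star h.plm x

lemma IsState.nn_one (h : IsState φ) : nn φ 1 = 1 := by simp [nn, h.one]

lemma IsState.nn_le (h : IsState φ) (a : A) : nn φ a ≤ ‖a‖ := by
  simpa [h.nn_one] using h.nn_mul a 1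

lemma IsState.norm_le (h : IsState φ) (a : A) : ‖φ a‖ ≤ ‖a‖ := by
  have := h.cs a 1
  rw [star_one, one_mul, h.nn_one, one_mul] at this
  exact this.trans (h.nn_le a)

lemma IsState.bound (h : IsState φ) (a x y : A) :
    ‖φ (star y * a * x)‖ ≤ ‖a‖ * nn φ x * nn φ y := by
  rw [mul_assoc]
  refine (h.cs _ _).trans ?_
  rw [mul_comm]
  exact mul_le_mul_of_nonneg_right (h.nn_mul a x) (nn_nonneg _)

/-- the state as a continuous functional -/
def IsState.clm (h : IsState φ) : A →L[ℂ] ℂ :=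
  φ.mkContinuous 1 (fun a => by simpa using h.norm_le a)

@[simp] lemma IsState.clm_apply (h : IsState φ) (a : A) : h.clm a = φ a := rfl

lemma IsState.cont (h : IsState φ) : Continuous φ := h.clm.continuous

lemma IsState.cont_nn (h : IsState φ) : Continuous (nn φ) := by
  have := h.cont
  unfold nn
  fun_prop

/-- the norm is the operator norm in the GNS space -/
lemma IsState.norm_le_of (h : IsState φ) (hf : Faith φ) (a : A) (C : ℝ) (hC : 0 ≤ C)
    (hb : ∀ x, nn φ (a * x) ≤ C * nn φ x) : ‖a‖ ≤ C := by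
  letI := CStarAlgebra.spectralOrder A
  haveI := CStarAlgebra.spectralOrderedRing A
  have hinj : Function.Injective h.plm.gnsNonUnitalStarAlgHom := by
    rw [injective_iff_map_eq_zero]
    intro t ht
    apply hf
    intro x y
    have h1 : ((h.plm.leftMulMapPreGNS t (h.plm.toPreGNS y) : h.plm.PreGNS) : h.plm.GNS) = 0 := by
      rw [← PositiveLinearMap.gnsNonUnitalStarAlgHom_apply_coe, ht]; rfl
    have h2 : nn φ (t * y) = 0 := by
      have := congrArg norm h1
      rw [UniformSpace.Completion.norm_coe, norm_zero] at this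
      exact this
    have h3 := h.cs (t * y) (star x)
    rw [h2, mul_zero, star_star, ← mul_assoc] at h3
    exact norm_le_zero_iff.mp h3
  rw [← NonUnitalStarAlgHom.norm_map _ hinj a]
  refine ContinuousLinearMap.opNorm_le_bound _ hC (fun ξ => ?_)
  induction ξ using UniformSpace.Completion.induction_on with
  | hp => apply isClosed_le <;> fun_prop
  | ih x =>
    rw [PositiveLinearMap.gnsNonUnitalStarAlgHom_apply_coe, UniformSpace.Completion.norm_coe,
      UniformSpace.Completion.norm_coe]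
    exact hb (h.plm.ofPreGNS x)

lemma IsState.norm_le_of' (h : IsState φ) (hf : Faith φ) (a : A) (C : ℝ) (hC : 0 ≤ C)
    (hb : ∀ x y, ‖φ (star y * a * x)‖ ≤ C * nn φ x * nn φ y) : ‖a‖ ≤ C := by
  refine h.norm_le_of hf a C hC (fun x => ?_)
  have h1 := hb x (a * x)
  rw [mul_assoc, h.nn_sq', Complex.norm_real, Real.norm_of_nonneg (sq_nonneg _)] at h1
  rcases (nn_nonneg (φ := φ) (a * x)).eq_or_lt with h0 | h0
  · rw [← h0]; exact mul_nonneg hC (nn_nonneg _)
  · rw [sq] at h1
    exact le_of_mul_le_mul_right h1 h0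

lemma IsState.comp {B : Type} [CStarAlgebra B] (h : IsState φ) (α : B →⋆ₐ[ℂ] A) :
    IsState (φ ∘ₗ α.toAlgHom.toLinearMap) :=
  ⟨by simp [h.one], fun x => by
    have := h.pos (α x)
    rw [← map_star, ← map_mul] at this
    exact this⟩

end state

/-- the linear span of the range is dense -/
def Dn {M T : Type} [CStarAlgebra T] (L : M → T) : Prop :=
  Dense (Submodule.span ℂ (Set.range L) : Set T)

lemma Dn.ind {M T : Type} [CStarAlgebra T] {L : M → T} (h : Dn L) (P : T → Prop)
    (hc : IsClosed {t | P t}) (h0 : P 0) (hL : ∀ m, P (L m))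
    (hadd : ∀ s t, P s → P t → P (s + t)) (hsm : ∀ (c : ℂ) t, P t → P (c • t)) (t : T) : P t := by
  have h1 : (Submodule.span ℂ (Set.range L) : Set T) ⊆ {t | P t} := by
    intro t ht
    induction ht using Submodule.span_induction with
    | mem x hx => obtain ⟨m, rfl⟩ := hx; exact hL m
    | zero => exact h0
    | add x y _ _ hx hy => exact hadd x y hx hy
    | smul c x _ hx => exact hsm c x hx
  exact (closure_minimal h1 hc) (h t)

lemma Dn.ext {M T X : Type} [CStarAlgebra T] [NormedAddCommGroup X] [NormedSpace ℂ X]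
    {L : M → T} (h : Dn L) (f g : T →L[ℂ] X) (hfg : ∀ m, f (L m) = g (L m)) (t : T) :
    f t = g t := by
  refine h.ind (fun t => f t = g t) (isClosed_eq f.continuous g.continuous) (by simp) hfg ?_ ?_ t
  · intro s t hs ht; simp [hs, ht]
  · intro c t ht; simp [ht]

lemma Dn.denseRange {M T : Type} [CStarAlgebra T] {L : M → T} (h : Dn L) :
    DenseRange (Finsupp.linearCombination ℂ L) := by
  have : Set.range (Finsupp.linearCombination ℂ L) = Submodule.span ℂ (Set.range L) := by
    rw [← Finsupp.range_linearCombination]; rfl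
  unfold DenseRange
  rw [this]; exact h

lemma Dn.of_span {M N T : Type} [CStarAlgebra T] {L : M → T} {L' : N → T} (h : Dn L)
    (h' : ∀ m, L m ∈ closure (Submodule.span ℂ (Set.range L') : Set T)) : Dn L' := by
  intro t
  refine h.ind (fun t => t ∈ (Submodule.span ℂ (Set.range L')).topologicalClosure)
    isClosed_closure (zero_mem _) h' (fun s t hs ht => add_mem hs ht)
    (fun c t ht => Submodule.smul_mem _ c ht) t

lemma Dn.id (T : Type) [CStarAlgebra T] : Dn (fun t : T => t) := by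
  unfold Dn
  simp

lemma Faith.of_dn {M T : Type} [CStarAlgebra T] {ω : T →ₗ[ℂ] ℂ} (hω : IsState ω) (hf : Faith ω)
    {L : M → T} (h : Dn L) (t : T) (ht : ∀ x y, ω (L x * t * L y) = 0) : t = 0 := by
  have hc := hω.cont
  apply hf
  intro x y
  have h1 : ∀ m, ω (L m * t * y) = 0 := by
    intro m
    refine h.ind (fun y => ω (L m * t * y) = 0) (isClosed_eq (by fun_prop) continuous_const)
      (by simp) (ht m) ?_ ?_ y
    · intro s u hs hu; simp [mul_add, hs, hu]
    · intro c u hu; simp [hu]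
  refine h.ind (fun x => ω (x * t * y) = 0) (isClosed_eq (by fun_prop) continuous_const)
      (by simp) h1 ?_ ?_ x
  · intro s u hs hu; simp [add_mul, hs, hu]
  · intro c u hu; simp [hu]

/-- Gram matrices are positive semidefinite -/
lemma psd_of_form {V ι : Type} [AddCommGroup V] [Module ℂ V] (Q : V → V →ₗ[ℂ] ℂ)
    (hQ : ∀ v, 0 ≤ Q v v) (hs : ∀ v w, Q v w = conj (Q w v)) (x : ι → V) :
    (Matrix.of fun i j => Q (x i) (x j)).PosSemidef := by
  refine ⟨?_, fun c => ?_⟩
  · ext i j
    simp [Matrix.conjTranspose_apply, hs (x i) (x j)]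
  · have := hQ (c.sum fun i ci => ci • x i)
    simp only [Finsupp.sum, map_sum, map_smul, smul_eq_mul] at this
    simp only [Finsupp.sum, Matrix.of_apply]
    convert this using 1
    rw [Finset.sum_comm]
    refine Finset.sum_congr rfl fun j _ => ?_
    rw [hs _ (x j), map_sum, map_sum, Finset.mul_sum]
    refine Finset.sum_congr rfl fun i _ => ?_
    rw [map_smul, smul_eq_mul, map_mul, ← hs, RCLike.star_def]
    ring

/-- the form of a state -/
def form {A : Type} [CStarAlgebra A] (φ : A →ₗ[ℂ] ℂ) (x : A) : A →ₗ[ℂ] ℂ :=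
  φ ∘ₗ LinearMap.mulLeft ℂ (star x)

@[simp] lemma form_apply {A : Type} [CStarAlgebra A] (φ : A →ₗ[ℂ] ℂ) (x y : A) :
    form φ x y = φ (star x * y) := rfl

lemma IsState.form_symm {A : Type} [CStarAlgebra A] {φ : A →ₗ[ℂ] ℂ} (h : IsState φ) (x y : A) :
    φ (star x * y) = conj (φ (star y * x)) := by
  rw [← h.star_eq]; simp

lemma IsState.psd {A ι : Type} [CStarAlgebra A] {φ : A →ₗ[ℂ] ℂ} (h : IsState φ) (x : ι → A) :
    (Matrix.of fun i j => φ (star (x i) * x j)).PosSemidef :=
  psd_of_form (form φ) h.pos h.form_symm x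

/-- the form of the defect of a bound -/
lemma IsState.psd_bound {A ι : Type} [CStarAlgebra A] {φ : A →ₗ[ℂ] ℂ} (h : IsState φ) (a : A)
    (C : ℝ) (hC : ‖a‖ ≤ C) (x : ι → A) :
    (Matrix.of fun i j => ((C ^ 2 : ℝ) : ℂ) * φ (star (x i) * x j) -
      φ (star (a * x i) * (a * x j))).PosSemidef := by
  let Q : A → A →ₗ[ℂ] ℂ := fun v =>
    ((C ^ 2 : ℝ) : ℂ) • form φ v - (form φ (a * v)) ∘ₗ LinearMap.mulLeft ℂ a
  refine psd_of_form Q (fun v => ?_) (fun v w => ?_) x
  · show 0 ≤ ((C ^ 2 : ℝ) : ℂ) * φ (star v * v) - φ (star (a * v) * (a * v))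
    rw [h.nn_sq', h.nn_sq', ← Complex.ofReal_mul, ← Complex.ofReal_sub, Complex.zero_le_real]
    have h1 := (h.nn_mul a v).trans (mul_le_mul_of_nonneg_right hC (nn_nonneg _))
    have h2 := nn_nonneg (φ := φ) (a * v)
    nlinarith
  · show ((C ^ 2 : ℝ) : ℂ) * φ (star v * w) - φ (star (a * v) * (a * w)) =
      conj (((C ^ 2 : ℝ) : ℂ) * φ (star w * v) - φ (star (a * w) * (a * v)))
    rw [map_sub, map_mul (starRingEnd ℂ), Complex.conj_ofReal, ← h.form_symm, ← h.form_symm]

lemma psd_sum {ι : Type} {K : Matrix ι ι ℂ} (hK : K.PosSemidef) (c : ι →₀ ℂ) :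
    0 ≤ ∑ i ∈ c.support, ∑ j ∈ c.support, conj (c i) * K i j * c j := hK.2 c

end Pool.Agent.H846Z.ZO
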