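import Mathlib

/-! Definitions for MP_37a859_an. -/

set_option autoImplicit false

open scoped TensorProduct ComplexOrder

namespace Pool.Agent.H846Z.ZO.Defs

/-- A unital C*-algebra is simple: it is non-zero and has no closed two-sided ideal except `0` and
itself. -/
def IsSimple (B : Type) [CStarAlgebra B] : Prop :=
  Nontrivial B ∧ ∀ I : TwoSidedIdeal B, IsClosed (I : Set B) → I = ⊥ ∨ I = ⊤

/-- A tracial state. -/
def IsTracialState {D : Type} [CStarAlgebra D] (τ : D →ₗ[ℂ] ℂ) : Prop :=
  τ 1 = 1 ∧ (∀ x, 0 ≤ τ (star x * x)) ∧ ∀ x y, τ (x * y) = τ (y * x)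

/-- Positive elements: those of the form `c* c`. -/
def IsPos {B : Type} [CStarAlgebra B] (a : B) : Prop := ∃ c, a = star c * c

/-- A hereditary C*-subalgebra: a closed *-subalgebra `H` such that `0 ≤ b ≤ a ∈ H` implies
`b ∈ H`. -/
def IsHereditary {B : Type} [CStarAlgebra B] (H : NonUnitalStarSubalgebra ℂ B) : Prop :=
  IsClosed (H : Set B) ∧ ∀ a ∈ H, ∀ b, IsPos b → IsPos (a - b) → b ∈ H

/-- `p` is an infinite projection of `H`: a projection in `H` which is Murray-von Neumann
equivalent, through a partial isometry `v` of `H`, to a proper subprojection `v v*`. -/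
def IsInfiniteProjection {B : Type} [CStarAlgebra B] (H : NonUnitalStarSubalgebra ℂ B) (p : B) :
    Prop :=
  p ∈ H ∧ star p = p ∧ p * p = p ∧
    ∃ v ∈ H, star v * v = p ∧ p * (v * star v) = v * star v ∧ v * star v ≠ p

/-- Purely infinite in the sense of Cuntz: every non-zero hereditary C*-subalgebra contains an
infinite projection. -/
def IsPurelyInfinite (B : Type) [CStarAlgebra B] : Prop :=
  ∀ H : NonUnitalStarSubalgebra ℂ B, IsHereditary H → H ≠ ⊥ → ∃ p, IsInfiniteProjection H p

/-- `O` is the Cuntz algebra `O_∞`: a non-zero C*-algebra generated by a sequence of isometries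
with mutually orthogonal ranges. -/
def IsCuntzInfty (O : Type) [CStarAlgebra O] : Prop :=
  Nontrivial O ∧ ∃ s : ℕ → O, (∀ i, star (s i) * s i = 1) ∧
    (∀ i j, i ≠ j → star (s i) * s j = 0) ∧
    (StarAlgebra.adjoin ℂ (Set.range s)).topologicalClosure = ⊤

/-- `B` is `D`-stable: `B` is isomorphic to a C*-tensor product `T` of `B` and `D`, that is, to a
C*-algebra `T` containing the algebraic tensor product as a dense *-subalgebra. -/
def IsStable (B D : Type) [CStarAlgebra B] [CStarAlgebra D] : Prop :=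
  ∃ (T : Type) (_ : CStarAlgebra T) (θ : B ⊗[ℂ] D →⋆ₐ[ℂ] T),
    Function.Injective θ ∧ DenseRange θ ∧ Nonempty (T ≃⋆ₐ[ℂ] B)

end Pool.Agent.H846Z.ZO.Defs
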