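import Pool.Agent.H846Z.ZO.TP

/-! The infinite tensor power of a simple algebra with a trace. -/

set_option autoImplicit false
set_option linter.style.haveILetI false

open scoped ComplexOrder ComplexConjugate InnerProductSpace TensorProduct

noncomputable section

namespace Pool.Agent.H846Z.ZO

lemma hom_cont {A B : Type} [CStarAlgebra A] [CStarAlgebra B] (α : A →⋆ₐ[ℂ] B) : Continuous α :=
  AddMonoidHomClass.continuous_of_bound α 1 fun a => by
    simpa using NonUnitalStarAlgHom.norm_apply_le α a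

lemma psd_local {ι : Type} {K : Matrix ι ι ℂ}
    (h : ∀ s : Finset ι, ∃ K' : Matrix ι ι ℂ, K'.PosSemidef ∧ ∀ i ∈ s, ∀ j ∈ s, K i j = K' i j) :
    K.PosSemidef := by
  classical
  refine ⟨?_, fun c => ?_⟩
  · ext i j
    obtain ⟨K', h1, h2⟩ := h {i, j}
    rw [Matrix.conjTranspose_apply, h2 i (by simp) j (by simp), h2 j (by simp) i (by simp)]
    exact congrFun (congrFun h1.1 i) j
  · obtain ⟨K', h1, h2⟩ := h c.support
    have := h1.2 c
    simp only [Finsupp.sum] at this ⊢
    refine this.trans_eq (Finset.sum_congr rfl fun i hi => Finset.sum_congr rfl fun j hj => ?_)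
    rw [h2 i hi j hj]

lemma psd_one {ι : Type} : (Matrix.of fun _ _ : ι => (1 : ℂ)).PosSemidef := by
  refine psd_congr (psd_of_form (V := ℂ) (fun v => conj v • LinearMap.id) (fun v => ?_)
    (fun v w => by simp [mul_comm]) (fun _ => 1)) (fun i j => by simp)
  simp only [LinearMap.smul_apply, LinearMap.id_apply, smul_eq_mul]
  exact star_mul_self_nonneg v

lemma psd_prod {ι : Type} (K : ℕ → ι → ι → ℂ) (h : ∀ n, (Matrix.of (K n)).PosSemidef) (N : ℕ) :
    (Matrix.of fun i j => ∏ n ∈ Finset.range N, K n i j).PosSemidef := by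
  induction N with
  | zero => simpa using psd_one
  | succ N ih =>
    exact psd_congr (ih.hadamard (h N)) fun i j => by simp [Finset.prod_range_succ]

lemma psd_prod' {ι : Type} (K K' : ℕ → ι → ι → ℂ) (C : ℕ → ℝ)
    (h : ∀ n, (Matrix.of (K n)).PosSemidef) (h' : ∀ n, (Matrix.of (K' n)).PosSemidef)
    (hC : ∀ n, (Matrix.of fun i j => ((C n ^ 2 : ℝ) : ℂ) * K n i j - K' n i j).PosSemidef) (N : ℕ) :
    (Matrix.of fun i j => (((∏ n ∈ Finset.range N, C n) ^ 2 : ℝ) : ℂ) *
      (∏ n ∈ Finset.range N, K n i j) - ∏ n ∈ Finset.range N, K' n i j).PosSemidef := by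
  induction N with
  | zero => exact psd_congr Matrix.PosSemidef.zero fun i j => by simp
  | succ N ih =>
    exact psd_congr (psd_step (psd_prod K h N) (h' N) ih (hC N)) fun i j => by
      simp [Finset.prod_range_succ]

variable (D : Type) [CStarAlgebra D]

/-- eventually trivial sequences -/
def RR : Submonoid (ℕ → D) where
  carrier := {f | ∃ N, ∀ n, N ≤ n → f n = 1}
  one_mem' := ⟨0, fun _ _ => rfl⟩
  mul_mem' := by
    rintro f g ⟨N, hN⟩ ⟨M, hM⟩
    exact ⟨max N M, fun n hn => by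
      simp [hN n (le_of_max_le_left hn), hM n (le_of_max_le_right hn)]⟩

instance : StarMul (RR D) where
  star f := ⟨star f.1, by
    obtain ⟨N, hN⟩ := f.2
    exact ⟨N, fun n hn => by simp [hN n hn]⟩⟩
  star_involutive f := Subtype.ext (star_star f.1)
  star_mul f g := Subtype.ext (star_mul f.1 g.1)

variable {D}

@[simp] lemma RR_star (f : RR D) (n : ℕ) : (star f).1 n = star (f.1 n) := rfl

@[simp] lemma RR_mul (f g : RR D) (n : ℕ) : (f * g).1 n = f.1 n * g.1 n := rfl

/-- the product state -/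
def ww (τ : D →ₗ[ℂ] ℂ) (f : RR D) : ℂ := ∏ᶠ n, τ (f.1 n)

lemma ww_eq {τ : D →ₗ[ℂ] ℂ} (h : τ 1 = 1) (f : RR D) (N : ℕ) (hN : ∀ n, N ≤ n → f.1 n = 1) :
    ww τ f = ∏ n ∈ Finset.range N, τ (f.1 n) := by
  apply finprod_eq_prod_of_mulSupport_subset
  intro n hn
  by_contra hc
  simp only [Finset.coe_range, Set.mem_Iio, not_lt] at hc
  exact hn (by simp [hN n hc, h])

lemma RR_bound (s : Finset (RR D)) : ∃ N, ∀ f ∈ s, ∀ n, N ≤ n → f.1 n = 1 := by
  classical
  induction s using Finset.induction_on with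
  | empty => exact ⟨0, by simp⟩
  | insert f s _ ih =>
    obtain ⟨N, hN⟩ := ih
    obtain ⟨M, hM⟩ := f.2
    refine ⟨max N M, fun g hg n hn => ?_⟩
    rcases Finset.mem_insert.mp hg with rfl | hg
    · exact hM n (le_of_max_le_right hn)
    · exact hN g hg n (le_of_max_le_left hn)

lemma pdf_ww {τ : D →ₗ[ℂ] ℂ} (h : IsState τ) : PDF (ww τ) := by
  classical
  haveI : Nontrivial D := ⟨⟨1, 0, fun e => by simpa [e] using h.one⟩⟩
  refine ⟨by simp [ww, h.one], psd_local fun s => ?_, fun m => ⟨∏ᶠ n, ‖m.1 n‖, psd_local fun s => ?_⟩⟩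
  · obtain ⟨N, hN⟩ := RR_bound s
    refine ⟨_, psd_prod (fun n (f g : RR D) => τ (star (f.1 n) * g.1 n))
      (fun n => h.psd (fun f : RR D => f.1 n)) N, fun f hf g hg => ?_⟩
    rw [Matrix.of_apply, ww_eq h.one _ N fun n hn => by simp [hN f hf n hn, hN g hg n hn]]
    rfl
  · obtain ⟨N, hN⟩ := RR_bound (insert m s)
    have hm := hN m (by simp)
    have hs : ∀ f ∈ s, ∀ n, N ≤ n → f.1 n = 1 := fun f hf => hN f (by simp [hf])
    refine ⟨_, psd_prod' (fun n (f g : RR D) => τ (star (f.1 n) * g.1 n))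
      (fun n (f g : RR D) => τ (star (m.1 n * f.1 n) * (m.1 n * g.1 n))) (fun n => ‖m.1 n‖)
      (fun n => h.psd (fun f : RR D => f.1 n)) (fun n => h.psd (fun f : RR D => m.1 n * f.1 n))
      (fun n => h.psd_bound _ _ le_rfl _) N, fun f hf g hg => ?_⟩
    rw [Matrix.of_apply, ww_eq h.one _ N fun n hn => by simp [hs f hf n hn, hs g hg n hn],
      ww_eq h.one _ N fun n hn => by simp [hs f hf n hn, hs g hg n hn, hm n hn],
      finprod_eq_prod_of_mulSupport_subset (s := Finset.range N)]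
    · rfl
    · intro n hn
      by_contra hc
      simp only [Finset.coe_range, Set.mem_Iio, not_lt] at hc
      exact hn (by simp [hm n hc])

/-- truncation -/
def trunc (n : ℕ) : (ℕ → D) →* RR D where
  toFun f := ⟨fun k => if k < n then f k else 1, n, fun k hk => by simp [not_lt.mpr hk]⟩
  map_one' := by ext k; simp
  map_mul' f g := by ext k; by_cases h : k < n <;> simp [h]

/-- the tail -/
def cut (n : ℕ) (f : RR D) : RR D :=
  ⟨fun k => if k < n then 1 else f.1 k, by
    obtain ⟨N, hN⟩ := f.2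
    exact ⟨N, fun k hk => by simp [hN k hk]⟩⟩

/-- the shift -/
def shift : RR D →* RR D where
  toFun f := ⟨fun k => Nat.casesOn k 1 f.1, by
    obtain ⟨N, hN⟩ := f.2
    refine ⟨N + 1, fun k hk => ?_⟩
    cases k with
    | zero => rfl
    | succ k => exact hN k (by omega)⟩
  map_one' := by ext k; cases k <;> rfl
  map_mul' f g := by ext k; cases k <;> simp

/-- the first slot -/
def slot : D →* RR D where
  toFun d := ⟨fun k => Nat.casesOn k d (fun _ => 1), 1, fun k hk => by
    cases k with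
    | zero => omega
    | succ k => rfl⟩
  map_one' := by ext k; cases k <;> rfl
  map_mul' f g := by ext k; cases k <;> simp

/-- the backward shift -/
def tl (f : RR D) : RR D :=
  ⟨fun k => f.1 (k + 1), by
    obtain ⟨N, hN⟩ := f.2
    exact ⟨N, fun k hk => hN _ (by omega)⟩⟩

lemma ww_cut {τ : D →ₗ[ℂ] ℂ} (h : τ 1 = 1) (n : ℕ) (f : RR D) :
    ww τ f = (∏ k ∈ Finset.range n, τ (f.1 k)) * ww τ (cut n f) := by
  obtain ⟨N, hN⟩ := f.2
  rw [ww_eq h f (n + N) fun k hk => hN k (by omega), ww_eq h (cut n f) (n + N) fun k hk => by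
    simp [cut, hN k (by omega)], Finset.prod_range_add, Finset.prod_range_add]
  congr 1
  rw [Finset.prod_eq_one (s := Finset.range n) fun k hk => by
    simp [cut, Finset.mem_range.mp hk, h], one_mul]
  exact Finset.prod_congr rfl fun k _ => by simp [cut]

lemma ww_tl {τ : D →ₗ[ℂ] ℂ} (h : τ 1 = 1) (f : RR D) : ww τ f = ww τ (tl f) * τ (f.1 0) := by
  obtain ⟨N, hN⟩ := f.2
  rw [ww_eq h f (N + 1) fun k hk => hN k (by omega), ww_eq h (tl f) N fun k hk => hN _ (by omega),
    Finset.prod_range_succ']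
  rfl

lemma allF_complex : AllF ℂ := by
  intro ψ hψ t ht
  have := ht 1 1
  rw [one_mul, ← smul_eq_mul, map_smul, hψ.one] at this
  simpa using this

lemma TP.dn_left {A D T M : Type} [CStarAlgebra A] [CStarAlgebra D] [CStarAlgebra T]
    {φ : A →ₗ[ℂ] ℂ} {τ : D →ₗ[ℂ] ℂ} {ω : T →ₗ[ℂ] ℂ} {α : A →⋆ₐ[ℂ] T} {β : D →⋆ₐ[ℂ] T}
    (h : TP φ τ ω α β) {L : M → A} (hd : Dn L) : Dn (fun p : M × D => α (L p.1) * β p.2) := by
  refine h.dn.of_span ?_
  rintro ⟨a, d⟩
  have hc : Continuous α := hom_cont α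
  refine hd.ind (fun a => α a * β d ∈ (Submodule.span ℂ
    (Set.range fun p : M × D => α (L p.1) * β p.2)).topologicalClosure)
    (IsClosed.preimage (f := fun a => α a * β d) (by fun_prop) isClosed_closure) (by simp)
    (fun m => subset_closure (Submodule.subset_span ⟨(m, d), rfl⟩)) ?_ ?_ a
  · intro s t hs ht; rw [map_add, add_mul]; exact add_mem hs ht
  · intro c t ht; rw [map_smul, smul_mul_assoc]; exact Submodule.smul_mem _ c ht

lemma Dn.sep {M T : Type} [CStarAlgebra T] {L : M → T} (h : Dn L)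
    (hs : TopologicalSpace.IsSeparable (Set.range L)) : TopologicalSpace.SeparableSpace T := by
  rw [← TopologicalSpace.isSeparable_univ_iff, ← h.closure_eq]
  exact (hs.span (R := ℂ)).closure

lemma TP.sep {A D T : Type} [CStarAlgebra A] [CStarAlgebra D] [CStarAlgebra T]
    {φ : A →ₗ[ℂ] ℂ} {τ : D →ₗ[ℂ] ℂ} {ω : T →ₗ[ℂ] ℂ} {α : A →⋆ₐ[ℂ] T} {β : D →⋆ₐ[ℂ] T}
    (h : TP φ τ ω α β) (hA : TopologicalSpace.SeparableSpace A)
    (hD : TopologicalSpace.SeparableSpace D) : TopologicalSpace.SeparableSpace T := by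
  have h1 := hom_cont α
  have h2 := hom_cont β
  exact h.dn.sep (TopologicalSpace.isSeparable_range (by fun_prop))

/-- finite tensor powers -/
lemma exists_fin {τ : D →ₗ[ℂ] ℂ} (h : IsState τ) (hD : AllF D) (n : ℕ) :
    ∃ (C : Type) (_ : CStarAlgebra C) (ω : C →ₗ[ℂ] ℂ) (L : (ℕ → D) →* C), IsState ω ∧ AllF C ∧
      (∀ f, L (star f) = star (L f)) ∧ Dn L ∧ (∀ f g, (∀ k < n, f k = g k) → L f = L g) ∧
      (∀ f, ω (L f) = ∏ k ∈ Finset.range n, τ (f k)) ∧
      (TopologicalSpace.SeparableSpace D → TopologicalSpace.SeparableSpace C) := by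
  induction n with
  | zero =>
    refine ⟨ℂ, inferInstance, LinearMap.id, 1, ⟨rfl, fun x => star_mul_self_nonneg x⟩, allF_complex,
      by simp, (Dn.id ℂ).of_span fun c => subset_closure ?_, by simp, by simp,
      fun _ => inferInstance⟩
    rw [show c = c • (1 : ℂ) by simp]
    exact Submodule.smul_mem _ _ (Submodule.subset_span ⟨1, rfl⟩)
  | succ n ih =>
    obtain ⟨C, _, ω, L, hω, hC, hs, hd, hloc, hL, hsep⟩ := ih
    obtain ⟨T, _, ω', α, β, hT⟩ := exists_TP hω h (hC _ hω) (hD _ h)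
    let L' : (ℕ → D) →* T :=
      { toFun := fun f => α (L f) * β (f n)
        map_one' := by simp
        map_mul' := fun f g => by rw [hT.mul, map_mul L]; rfl }
    have hL' : ∀ f, L' f = α (L f) * β (f n) := fun f => rfl
    refine ⟨T, inferInstance, ω', L', hT.sω, hT.allF hC hD, fun f => ?_, ?_, fun f g hfg => ?_,
      fun f => ?_, fun e => hT.sep (hsep e) e⟩
    · rw [hL', hL', hT.star_eq, hs]; rfl
    · refine (hT.dn_left hd).of_span ?_
      rintro ⟨f, d⟩
      refine subset_closure (Submodule.subset_span ⟨Function.update f n d, ?_⟩)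
      rw [hL', Function.update_self, hloc _ f fun k hk => Function.update_of_ne hk.ne _ _]
    · rw [hL', hL', hloc f g fun k hk => hfg k (by omega), hfg n (by omega)]
    · rw [hL', hT.prod, hL, Finset.prod_range_succ]

/-- the infinite tensor power -/
theorem exists_E {τ : D →ₗ[ℂ] ℂ} (h : IsState τ) (htr : ∀ x y, τ (x * y) = τ (y * x))
    (hD : AllF D) :
    ∃ (E : Type) (_ : CStarAlgebra E) (ω : E →ₗ[ℂ] ℂ) (σ : E →⋆ₐ[ℂ] E) (β : D →⋆ₐ[ℂ] E),
      (∀ x y, ω (x * y) = ω (y * x)) ∧
      (AllF E ∧ (TopologicalSpace.SeparableSpace D → TopologicalSpace.SeparableSpace E)) ∧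
      TP ω τ ω σ β := by
  classical
  have hw := pdf_ww h
  obtain ⟨E, _, L, ω, hs, hd, hω, hf, hL⟩ := machine hw
  have hc := hω.cont
  have hsh : ∀ f : RR D, shift (star f) = star (shift f) := fun f => by
    ext k; cases k <;> simp [shift]
  have hsl : ∀ d : D, slot (star d) = star (slot d) := fun f => by
    ext k; cases k <;> simp [slot]
  have hcm : ∀ (f : RR D) (d : D), shift f * slot d = slot d * shift f := fun f d => by
    ext k; cases k <;> simp [slot, shift]
  have hdec : ∀ f : RR D, shift (tl f) * slot (f.1 0) = f := fun f => by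
    ext k; cases k <;> simp [slot, shift, tl]
  have hww : ∀ (f : RR D) (d : D), ww τ (shift f * slot d) = ww τ f * τ d := fun f d => by
    rw [ww_tl h.one]
    congr 2
    · ext k; simp [slot, shift, tl]
    · simp [slot, shift]
  obtain ⟨σ, hσ⟩ := exists_hom hω hω hf L hs hd (L.comp shift)
    (fun m => by simp only [MonoidHom.comp_apply, hsh, hs]) (fun d => L (slot d)) _ (h.psd id)
    (fun m n n' => by
      simp only [MonoidHom.comp_apply, ← hs, ← map_mul, hL, ← hsl]
      rw [← hcm, mul_assoc, ← map_mul, hww]; rfl)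
    (hd.of_span fun f => subset_closure (Submodule.subset_span ⟨(tl f, f.1 0), by
        simp only [MonoidHom.comp_apply, ← map_mul, hdec]⟩))
  obtain ⟨β, hβ⟩ := exists_hom h hω hf (MonoidHom.id D) (fun m => rfl) (Dn.id D) (L.comp slot)
    (fun m => by simp only [MonoidHom.comp_apply, hsl, hs]) (fun f => L (shift f)) _ hw.psd
    (fun m n n' => by
      simp only [MonoidHom.comp_apply, ← hs, ← map_mul, hL, ← hsh]
      rw [mul_assoc, ← hcm, ← mul_assoc, ← map_mul, hww, mul_comm]; rfl)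
    (hd.of_span fun f => subset_closure (Submodule.subset_span ⟨(f.1 0, tl f), by
        simp only [MonoidHom.comp_apply, ← map_mul, ← hcm, hdec]⟩))
  have hσ' : ∀ f, σ (L f) = L (shift f) := hσ
  have hβ' : ∀ d, β d = L (slot d) := hβ
  have hcσ : Continuous σ := hom_cont σ
  refine ⟨E, inferInstance, ω, σ, β, fun x y => ?_, ?_, hω, h, hω, hf, hD _ h, hf, fun a d => ?_,
    ?_, fun a d => ?_⟩
  · have h1 : ∀ f, ω (L f * y) = ω (y * L f) := by
      intro f
      refine hd.ext (hω.twL (L f) 1) (hω.twL 1 (L f)) (fun g => ?_) y |> fun e => by simpa using e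
      simp only [IsState.twL_apply, mul_one, one_mul, ← map_mul, hL, ww, RR_mul]
      exact finprod_congr fun n => htr _ _
    refine hd.ext (hω.twL 1 y) (hω.twL y 1) (fun g => ?_) x |> fun e => by simpa using e
    simpa using h1 g
  · have hfin := fun n => exists_fin h hD n
    choose C iC ωC LC h1 h2 h3 h4 h5 h6 hsep using hfin
    have hΦ : ∀ n, ∃ Φ : C n →⋆ₐ[ℂ] E, ∀ f, Φ (LC n f) = L (trunc n f) := by
      intro n
      refine exists_hom (h1 n) hω hf (LC n) (h3 n) (h4 n) (L.comp (trunc n)) (fun m => ?_)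
        (fun f => L (cut n f)) _ (hw.psd.submatrix (cut n)) (fun m f g => ?_)
        (hd.of_span fun f => subset_closure (Submodule.subset_span ⟨(f.1, f), ?_⟩))
      · simp only [MonoidHom.comp_apply, ← hs]
        congr 1; ext k; by_cases hk : k < n <;> simp [trunc, hk]
      · simp only [MonoidHom.comp_apply, ← hs, ← map_mul, hL, h6, Matrix.submatrix_apply,
          Matrix.of_apply]
        rw [ww_cut h.one n]
        congr 1
        · exact Finset.prod_congr rfl fun k hk => by simp [trunc, cut, Finset.mem_range.mp hk]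
        · congr 1; ext k; by_cases hk : k < n <;> simp [trunc, cut, hk]
      · simp only [MonoidHom.comp_apply, ← map_mul]
        congr 1; ext k; by_cases hk : k < n <;> simp [trunc, cut, hk]
    choose Φ hΦ using hΦ
    have h7 : ∀ t ∈ Submodule.span ℂ (Set.range L), ∃ N, ∀ n, N ≤ n → ∃ c, Φ n c = t := by
      intro t ht
      induction ht using Submodule.span_induction with
      | mem x hx =>
        obtain ⟨f, rfl⟩ := hx
        obtain ⟨N, hN⟩ := f.2
        refine ⟨N, fun n hn => ⟨LC n f.1, ?_⟩⟩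
        rw [hΦ]
        congr 1; ext k; by_cases hk : k < n
        · simp [trunc, hk]
        · simp [trunc, hk, hN k (by omega)]
      | zero => exact ⟨0, fun n _ => ⟨0, map_zero _⟩⟩
      | add x y _ _ hx hy =>
        obtain ⟨N, hN⟩ := hx
        obtain ⟨M, hM⟩ := hy
        refine ⟨max N M, fun n hn => ?_⟩
        obtain ⟨a, rfl⟩ := hN n (le_of_max_le_left hn)
        obtain ⟨b, rfl⟩ := hM n (le_of_max_le_right hn)
        exact ⟨a + b, map_add _ _ _⟩
      | smul c x _ hx =>
        obtain ⟨N, hN⟩ := hx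
        refine ⟨N, fun n hn => ?_⟩
        obtain ⟨a, rfl⟩ := hN n hn
        exact ⟨c • a, map_smul _ _ _⟩
    refine ⟨fun ψ hψ z hz => ?_, fun e => hd.sep ?_⟩
    swap
    · refine (TopologicalSpace.isSeparable_iUnion.mpr fun n => ?_ :
        TopologicalSpace.IsSeparable (⋃ n, Set.range (Φ n))).mono ?_
      · haveI := hsep n e
        exact TopologicalSpace.isSeparable_range (hom_cont _)
      · intro t ht
        obtain ⟨N, hN⟩ := h7 t (Submodule.subset_span ht)
        exact Set.mem_iUnion.mpr ⟨N, hN N le_rfl⟩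
    have h8 : (Submodule.span ℂ (Set.range L) : Set E) ⊆ {t | ‖t‖ ≤ ‖t - z‖} := by
      intro t ht
      obtain ⟨N, hN⟩ := h7 t ht
      obtain ⟨c, rfl⟩ := hN N le_rfl
      refine (NonUnitalStarAlgHom.norm_apply_le (Φ N) c).trans ?_
      have hst := hψ.comp (Φ N)
      refine hst.norm_le_of' (h2 N _ hst) c _ (norm_nonneg _) fun x y => ?_
      have e1 : (ψ ∘ₗ (Φ N).toAlgHom.toLinearMap) (star y * c * x) =
          ψ (star (Φ N y) * (Φ N c - z) * Φ N x) := by
        rw [mul_sub, sub_mul, map_sub, hz, sub_zero, ← map_star, ← map_mul, ← map_mul]; rfl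
      have e2 : ∀ x, nn (ψ ∘ₗ (Φ N).toAlgHom.toLinearMap) x = nn ψ (Φ N x) := fun x => by
        unfold nn
        rw [← map_star, ← map_mul]; rfl
      rw [e1, e2, e2]
      exact hψ.bound _ _ _
    have h9 := closure_minimal h8 (isClosed_le (by fun_prop) (by fun_prop)) (hd z)
    simpa using h9
  · show σ a * β d = β d * σ a
    refine hd.ind (fun a => σ a * β d = β d * σ a) (isClosed_eq (by fun_prop) (by fun_prop))
      (by simp) (fun f => by rw [hσ', hβ', ← map_mul, ← map_mul, hcm]) ?_ ?_ a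
    · intro s t hs ht; simp [add_mul, mul_add, hs, ht]
    · intro c t ht; simp [ht]
  · exact hd.of_span fun f => subset_closure (Submodule.subset_span ⟨(L (tl f), f.1 0), by
      simp only [hσ', hβ', ← map_mul, hdec]⟩)
  · refine hd.ind (fun a => ω (σ a * β d) = ω a * τ d) (isClosed_eq (by fun_prop) (by fun_prop))
      (by simp) (fun f => by rw [hσ', hβ', ← map_mul, hL, hL, hww]) ?_ ?_ a
    · intro s t hs ht; simp [add_mul, hs, ht]
    · intro c t ht; simp [ht, mul_assoc]

/-- associativity -/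
theorem TP.assoc {A E T : Type} [CStarAlgebra A] [CStarAlgebra E] [CStarAlgebra T]
    {φ : A →ₗ[ℂ] ℂ} {ρ : E →ₗ[ℂ] ℂ} {ω : T →ₗ[ℂ] ℂ} {α : A →⋆ₐ[ℂ] T} {β : E →⋆ₐ[ℂ] T}
    (h : TP φ ρ ω α β) {τ : D →ₗ[ℂ] ℂ} {σ : E →⋆ₐ[ℂ] E} {γ : D →⋆ₐ[ℂ] E} (h' : TP ρ τ ρ σ γ) :
    ∃ σ' : T →⋆ₐ[ℂ] T, TP ω τ ω σ' (β.comp γ) := by
  let L : A × E →* T :=
    { toFun := fun p => α p.1 * β p.2
      map_one' := by simp
      map_mul' := fun p q => by rw [h.mul]; rfl }
  let L' : A × E →* T :=
    { toFun := fun p => α p.1 * β (σ p.2)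
      map_one' := by simp
      map_mul' := fun p q => by rw [h.mul, ← map_mul σ]; rfl }
  have hL : ∀ p, L p = α p.1 * β p.2 := fun p => rfl
  have hL' : ∀ p, L' p = α p.1 * β (σ p.2) := fun p => rfl
  have hdn : Dn fun p : (A × E) × D => L' p.1 * β (γ p.2) := by
    refine (h.symm.dn_left h'.dn).of_span ?_
    rintro ⟨⟨e, d⟩, a⟩
    refine subset_closure (Submodule.subset_span ⟨((a, e), d), ?_⟩)
    simp only [hL']
    rw [mul_assoc, ← map_mul, (h.comm _ _).eq]
  have hpr : ∀ (m : A × E) n n', ω (Star.star (β (γ n)) * L' m * β (γ n')) =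
      ω (L m) * τ (Star.star n * n') := by
    intro m n n'
    rw [hL, hL', ← map_star, ← mul_assoc, ← (h.comm _ _).eq, mul_assoc, mul_assoc, ← map_mul,
      ← map_mul, h.prod, h.prod, ← map_star, ← mul_assoc, ← (h'.comm _ _).eq, mul_assoc,
      ← map_mul, h'.prod, mul_assoc]
  obtain ⟨σ', hσ'⟩ := exists_hom h.sω h.sω h.fω L (fun m => (h.star_eq _ _).symm) h.dn L'
    (fun m => by rw [hL', hL', h.star_eq, ← map_star]; rfl) (fun d => β (γ d)) _ (h'.sτ.psd id)
    hpr hdn
  have hc : Continuous σ' := hom_cont σ'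
  have hcω := h.sω.cont
  refine ⟨σ', h.sω, h'.sτ, h.sω, h.fω, h'.fτ, h.fω, fun t d => ?_, ?_, fun t d => ?_⟩
  · show σ' t * β (γ d) = β (γ d) * σ' t
    refine h.dn.ind (fun t => σ' t * β (γ d) = β (γ d) * σ' t)
      (isClosed_eq (by fun_prop) (by fun_prop)) (by simp) (fun p => ?_) ?_ ?_ t
    · rw [← hL, hσ', hL', mul_assoc, ← map_mul, (h'.comm _ _).eq, map_mul, ← mul_assoc,
        (h.comm _ _).eq, mul_assoc]
    · intro s t hs ht; simp [add_mul, mul_add, hs, ht]
    · intro c t ht; simp [ht]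
  · exact hdn.of_span fun p => subset_closure (Submodule.subset_span ⟨(L p.1, p.2), by
      simp only [hσ']; rfl⟩)
  · show ω (σ' t * β (γ d)) = ω t * τ d
    refine h.dn.ind (fun t => ω (σ' t * β (γ d)) = ω t * τ d)
      (isClosed_eq (by fun_prop) (by fun_prop)) (by simp) (fun p => ?_) ?_ ?_ t
    · have := hpr p 1 d
      simp only [map_one, star_one, one_mul] at this
      rw [← hL, hσ', this]
    · intro s t hs ht; simp [add_mul, hs, ht]
    · intro c t ht; simp [ht, mul_assoc]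

end Pool.Agent.H846Z.ZO
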