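import Pool.Agent.H846Z.ZO.Basic

/-! The C*-algebra of a positive definite function on a star monoid; extension of homomorphisms. -/

set_option autoImplicit false
set_option linter.style.haveILetI false

open scoped ComplexOrder ComplexConjugate InnerProductSpace

noncomputable section

namespace Pool.Agent.H846Z.ZO

section cl

variable {M T : Type} [Monoid M] [StarMul M] [CStarAlgebra T]

/-- the span of the range of a star monoid homomorphism -/
def spanSub (L : M →* T) (hL : ∀ m, L (star m) = star (L m)) : StarSubalgebra ℂ T where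
  carrier := Submodule.span ℂ (Set.range L)
  mul_mem' := by
    intro a b ha hb
    induction ha using Submodule.span_induction with
    | mem x hx =>
      induction hb using Submodule.span_induction with
      | mem y hy =>
        obtain ⟨m, rfl⟩ := hx
        obtain ⟨n, rfl⟩ := hy
        exact Submodule.subset_span ⟨m * n, map_mul L m n⟩
      | zero => simp
      | add y z _ _ hy hz => rw [mul_add]; exact add_mem hy hz
      | smul c y _ hy => rw [mul_smul_comm]; exact Submodule.smul_mem _ c hy
    | zero => simp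
    | add y z _ _ hy hz => rw [add_mul]; exact add_mem hy hz
    | smul c y _ hy => rw [smul_mul_assoc]; exact Submodule.smul_mem _ c hy
  add_mem' := fun ha hb => add_mem ha hb
  algebraMap_mem' := fun c => by
    rw [Algebra.algebraMap_eq_smul_one]
    exact Submodule.smul_mem _ c (Submodule.subset_span ⟨1, map_one L⟩)
  star_mem' := by
    intro a ha
    induction ha using Submodule.span_induction with
    | mem x hx =>
      obtain ⟨m, rfl⟩ := hx
      exact Submodule.subset_span ⟨star m, hL m⟩
    | zero => simp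
    | add y z _ _ hy hz => rw [star_add]; exact add_mem hy hz
    | smul c y _ hy => rw [star_smul]; exact Submodule.smul_mem _ _ hy

/-- the closed subalgebra spanned by a star monoid homomorphism -/
theorem exists_cl (L : M →* T) (hL : ∀ m, L (star m) = star (L m)) :
    ∃ (S : Type) (_ : CStarAlgebra S) (ι : S →⋆ₐ[ℂ] T) (L' : M →* S),
      Function.Injective ι ∧ (∀ m, ι (L' m) = L m) ∧ (∀ m, L' (star m) = star (L' m)) ∧ Dn L' := by
  let S := (spanSub L hL).topologicalClosure
  haveI : IsClosed (S : Set T) := (spanSub L hL).isClosed_topologicalClosure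
  have hm : ∀ m, L m ∈ S := fun m =>
    (spanSub L hL).le_topologicalClosure (Submodule.subset_span ⟨m, rfl⟩)
  let L' : M →* S := L.codRestrict S.toSubalgebra.toSubsemiring.toSubmonoid hm
  refine ⟨S, inferInstance, S.subtype, L', Subtype.val_injective, fun m => rfl,
    fun m => Subtype.ext (hL m), ?_⟩
  rintro ⟨t, ht⟩
  rw [closure_subtype]
  refine closure_mono ?_ ht
  intro x hx
  have hx' : x ∈ Submodule.span ℂ (Set.range L) := hx
  have : Submodule.span ℂ (Set.range L) =
      (Submodule.span ℂ (Set.range L')).map S.subtype.toAlgHom.toLinearMap := by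
    rw [Submodule.map_span, ← Set.range_comp]; rfl
  rw [this] at hx'
  exact hx'

end cl

section machine

variable {M : Type} [Monoid M] [StarMul M]

/-- a positive definite function with bounded translations -/
structure PDF (w : M → ℂ) : Prop where
  one : w 1 = 1
  psd : (Matrix.of fun x y => w (star x * y)).PosSemidef
  bdd : ∀ m, ∃ C : ℝ, (Matrix.of fun x y => ((C ^ 2 : ℝ) : ℂ) * w (star x * y) -
    w (star (m * x) * (m * y))).PosSemidef

/-- pre-Hilbert space -/
def Pre {w : M → ℂ} (_ : PDF w) : Type := M →₀ ℂ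

variable {w : M → ℂ} (h : PDF w)

instance : AddCommGroup (Pre h) := inferInstanceAs (AddCommGroup (M →₀ ℂ))
instance : Module ℂ (Pre h) := inferInstanceAs (Module ℂ (M →₀ ℂ))

/-- the sesquilinear form of a kernel -/
def kf (K : M → M → ℂ) (c d : M →₀ ℂ) : ℂ := c.sum fun x a => d.sum fun y b => conj a * K x y * b

omit [Monoid M] [StarMul M] in
lemma kf_add_left (K : M → M → ℂ) (c c' d : M →₀ ℂ) : kf K (c + c') d = kf K c d + kf K c' d := by
  unfold kf
  rw [Finsupp.sum_add_index']
  · intro x; simp
  · intro x a a'; simp [add_mul, Finsupp.sum_add]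

omit [Monoid M] [StarMul M] in
lemma kf_smul_left (K : M → M → ℂ) (r : ℂ) (c d : M →₀ ℂ) :
    kf K (r • c) d = conj r * kf K c d := by
  unfold kf
  rw [Finsupp.sum_smul_index', Finsupp.mul_sum]
  · refine Finsupp.sum_congr fun x _ => ?_
    rw [Finsupp.mul_sum]
    refine Finsupp.sum_congr fun y _ => ?_
    simp only [smul_eq_mul, map_mul]; ring
  · intro x; simp

omit [Monoid M] [StarMul M] in
lemma kf_symm (K : M → M → ℂ) (hK : ∀ x y, conj (K y x) = K x y) (c d : M →₀ ℂ) :
    conj (kf K d c) = kf K c d := by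
  unfold kf
  simp only [Finsupp.sum, map_sum, map_mul, Complex.conj_conj, hK]
  rw [Finset.sum_comm]
  refine Finset.sum_congr rfl fun x _ => Finset.sum_congr rfl fun y _ => ?_
  ring

omit [Monoid M] [StarMul M] in
lemma kf_single (K : M → M → ℂ) (x y : M) :
    kf K (Finsupp.single x 1) (Finsupp.single y 1) = K x y := by
  simp [kf]

omit [Monoid M] [StarMul M] in
lemma kf_map (K : M → M → ℂ) (f g : M → M) (c d : M →₀ ℂ) :
    kf K (c.mapDomain f) (d.mapDomain g) = kf (fun x y => K (f x) (g y)) c d := by
  unfold kf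
  rw [Finsupp.sum_mapDomain_index]
  · refine Finsupp.sum_congr fun x _ => ?_
    rw [Finsupp.sum_mapDomain_index]
    · intro; simp
    · intro y b b'; ring
  · intro x; simp
  · intro x a a'; simp [add_mul, Finsupp.sum_add]

include h in
lemma PDF.symm (x y : M) : conj (w (star y * x)) = w (star x * y) := by
  have := congrFun (congrFun h.psd.1 x) y
  simpa [Matrix.conjTranspose_apply] using this

/-- the inner product -/
abbrev core : PreInnerProductSpace.Core ℂ (Pre h) where
  inner c d := kf (fun x y => w (star x * y)) c d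
  conj_inner_symm c d := kf_symm _ (fun x y => h.symm x y) c d
  re_inner_nonneg c := (h.psd.2 c).1
  add_left c c' d := kf_add_left _ c c' d
  smul_left c d r := kf_smul_left _ r c d

instance : SeminormedAddCommGroup (Pre h) :=
  InnerProductSpace.Core.toSeminormedAddCommGroup (c := core h)

instance : InnerProductSpace ℂ (Pre h) := InnerProductSpace.ofCore (core h)

/-- the identity map -/
def pre : (M →₀ ℂ) →ₗ[ℂ] Pre h := LinearMap.id (R := ℂ) (M := M →₀ ℂ)

lemma pre_surj (x : Pre h) : ∃ c, pre h c = x := ⟨x, rfl⟩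

lemma inner_pre (c d : M →₀ ℂ) : ⟪pre h c, pre h d⟫_ℂ = kf (fun x y => w (star x * y)) c d := rfl

/-- translation -/
def tr0 (m : M) : Pre h →ₗ[ℂ] Pre h := Finsupp.lmapDomain ℂ ℂ (fun x => m * x)

lemma tr0_pre (m : M) (c : M →₀ ℂ) : tr0 h m (pre h c) = pre h (c.mapDomain fun x => m * x) := rfl

lemma tr0_bound (m : M) : ∃ C, ∀ c, ‖tr0 h m c‖ ≤ C * ‖c‖ := by
  obtain ⟨C, hC⟩ := h.bdd m
  refine ⟨|C|, fun c => ?_⟩
  obtain ⟨c, rfl⟩ := pre_surj h c
  have h1 := hC.2 c
  have h2 : (Finsupp.sum c fun i xi => Finsupp.sum c fun j xj => star xi *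
      (Matrix.of fun x y => ((C ^ 2 : ℝ) : ℂ) * w (star x * y) -
        w (star (m * x) * (m * y))) i j * xj) =
      ((C ^ 2 : ℝ) : ℂ) * ⟪pre h c, pre h c⟫_ℂ - ⟪tr0 h m (pre h c), tr0 h m (pre h c)⟫_ℂ := by
    rw [tr0_pre, inner_pre, inner_pre, kf_map]
    simp only [kf, Finsupp.sum, Finset.mul_sum, ← Finset.sum_sub_distrib, Matrix.of_apply,
      RCLike.star_def]
    refine Finset.sum_congr rfl fun x _ => Finset.sum_congr rfl fun y _ => ?_
    ring
  rw [h2, inner_self_eq_norm_sq_to_K, inner_self_eq_norm_sq_to_K] at h1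
  have h3 : ‖tr0 h m (pre h c)‖ ^ 2 ≤ (|C| * ‖pre h c‖) ^ 2 := by
    have h4 := h1.1
    simp only [Complex.zero_re, Complex.coe_algebraMap, ← Complex.ofReal_pow, ← Complex.ofReal_mul,
      ← Complex.ofReal_sub, Complex.ofReal_re] at h4
    rw [mul_pow, sq_abs]; linarith
  exact (pow_le_pow_iff_left₀ (norm_nonneg _) (by positivity) two_ne_zero).mp h3

/-- translation, continuous -/
def tr1 (m : M) : Pre h →L[ℂ] Pre h := (tr0 h m).mkContinuousOfExistsBound (tr0_bound h m)

lemma tr1_pre (m : M) (c : M →₀ ℂ) : tr1 h m (pre h c) = pre h (c.mapDomain fun x => m * x) := rfl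

/-- the Hilbert space -/
abbrev Hil : Type := UniformSpace.Completion (Pre h)

/-- the representation -/
def rep : M →* (Hil h →L[ℂ] Hil h) where
  toFun m := (tr1 h m).completion
  map_one' := by
    ext c
    induction c using UniformSpace.Completion.induction_on with
    | hp => apply isClosed_eq <;> fun_prop
    | ih c =>
      obtain ⟨c, rfl⟩ := pre_surj h c
      rw [ContinuousLinearMap.completion_apply_coe, tr1_pre]
      simp only [one_mul]
      rw [show (fun x : M => x) = id from rfl, Finsupp.mapDomain_id]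
      rfl
  map_mul' m n := by
    ext c
    induction c using UniformSpace.Completion.induction_on with
    | hp => apply isClosed_eq <;> fun_prop
    | ih c =>
      obtain ⟨c, rfl⟩ := pre_surj h c
      rw [mul_apply_eq_comp, ContinuousLinearMap.completion_apply_coe,
        ContinuousLinearMap.completion_apply_coe, ContinuousLinearMap.completion_apply_coe,
        tr1_pre, tr1_pre, tr1_pre, ← Finsupp.mapDomain_comp]
      congr 3
      funext x
      simp [mul_assoc]

lemma rep_star (m : M) : rep h (star m) = star (rep h m) := by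
  refine (ContinuousLinearMap.eq_adjoint_iff _ _).mpr ?_
  intro x y
  induction x, y using UniformSpace.Completion.induction_on₂ with
  | hp => apply isClosed_eq <;> fun_prop
  | ih c d =>
    show ⟪(tr1 h (star m)).completion c, (d : Hil h)⟫_ℂ = ⟪(c : Hil h), (tr1 h m).completion d⟫_ℂ
    obtain ⟨c, rfl⟩ := pre_surj h c
    obtain ⟨d, rfl⟩ := pre_surj h d
    rw [ContinuousLinearMap.completion_apply_coe, ContinuousLinearMap.completion_apply_coe,
      UniformSpace.Completion.inner_coe, UniformSpace.Completion.inner_coe, tr1_pre, tr1_pre,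
      inner_pre, inner_pre]
    have h1 := kf_map (fun x y => w (star x * y)) (fun x => star m * x) id c d
    have h2 := kf_map (fun x y => w (star x * y)) id (fun x => m * x) c d
    rw [Finsupp.mapDomain_id] at h1 h2
    refine h1.trans (Eq.trans ?_ h2.symm)
    simp [mul_assoc]

/-- basis vectors -/
def vec (m : M) : Hil h := ((pre h (Finsupp.single m 1) : Pre h) : Hil h)

lemma rep_vec (m x : M) : rep h m (vec h x) = vec h (m * x) := by
  show (tr1 h m).completion _ = _
  unfold vec
  rw [ContinuousLinearMap.completion_apply_coe, tr1_pre, Finsupp.mapDomain_single]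

lemma inner_vec (x y : M) : ⟪vec h x, vec h y⟫_ℂ = w (star x * y) := by
  unfold vec
  rw [UniformSpace.Completion.inner_coe, inner_pre, kf_single]

lemma vec_ind (P : Hil h → Prop) (hc : IsClosed {t | P t}) (h0 : P 0) (hL : ∀ m, P (vec h m))
    (hadd : ∀ s t, P s → P t → P (s + t)) (hsm : ∀ (c : ℂ) t, P t → P (c • t)) (t : Hil h) :
    P t := by
  induction t using UniformSpace.Completion.induction_on with
  | hp => exact hc
  | ih c =>
    obtain ⟨c, rfl⟩ := pre_surj h c
    induction c using Finsupp.induction_linear with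
    | zero => rw [map_zero]; exact h0
    | add f g hf hg =>
      have := hadd _ _ hf hg
      rwa [← UniformSpace.Completion.coe_add, ← map_add] at this
    | single x a =>
      have := hsm a _ (hL x)
      unfold vec at this
      rw [← UniformSpace.Completion.coe_smul, ← map_smul] at this
      convert this using 3
      simp

include h in
/-- the C*-algebra of a positive definite function -/
theorem machine : ∃ (T : Type) (_ : CStarAlgebra T) (L : M →* T) (ω : T →ₗ[ℂ] ℂ),
    (∀ m, L (star m) = star (L m)) ∧ Dn L ∧ IsState ω ∧ Faith ω ∧ ∀ m, ω (L m) = w m := by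
  obtain ⟨S, _, ι, L, hι, hL, hs, hd⟩ := exists_cl (rep h) (rep_star h)
  let ω : S →ₗ[ℂ] ℂ :=
    { toFun := fun t => ⟪vec h 1, ι t (vec h 1)⟫_ℂ
      map_add' := fun s t => by simp [inner_add_right]
      map_smul' := fun c t => by simp [inner_smul_right] }
  have hω : ∀ t, ω t = ⟪vec h 1, ι t (vec h 1)⟫_ℂ := fun t => rfl
  refine ⟨S, inferInstance, L, ω, hs, hd, ⟨?_, fun x => ?_⟩, ?_, fun m => ?_⟩
  · rw [hω, map_one, one_apply_eq_self, inner_vec]; simp [h.one]
  · rw [hω, map_mul, map_star, mul_apply_eq_comp, ContinuousLinearMap.star_eq_adjoint,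
      ContinuousLinearMap.adjoint_inner_right, inner_self_eq_norm_sq_to_K]
    simp only [Complex.coe_algebraMap]
    positivity
  · intro t ht
    apply hι
    rw [map_zero]
    have h1 : ∀ x y, ⟪vec h x, ι t (vec h y)⟫_ℂ = 0 := by
      intro x y
      have := ht (L (star x)) (L y)
      rw [hω, map_mul, map_mul, hL, hL, rep_star, mul_apply_eq_comp,
        mul_apply_eq_comp, ContinuousLinearMap.star_eq_adjoint,
        ContinuousLinearMap.adjoint_inner_right, rep_vec, rep_vec, mul_one, mul_one] at this
      exact this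
    have h2 : ∀ y, ι t (vec h y) = 0 := by
      intro y
      have : ∀ ξ, ⟪ξ, ι t (vec h y)⟫_ℂ = 0 := by
        intro ξ
        refine vec_ind h (fun ξ => ⟪ξ, ι t (vec h y)⟫_ℂ = 0)
          (isClosed_eq (by fun_prop) continuous_const) (by simp) (fun x => h1 x y) ?_ ?_ ξ
        · intro a b ha hb; simp [inner_add_left, ha, hb]
        · intro c a ha; simp [inner_smul_left, ha]
      exact inner_self_eq_zero.mp (this _)
    ext ξ
    refine vec_ind h (fun ξ => ι t ξ = 0) (isClosed_eq (by fun_prop) continuous_const) (by simp)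
      h2 ?_ ?_ ξ
    · intro a b ha hb; simp [ha, hb]
    · intro c a ha; simp [ha]
  · rw [hω, hL, rep_vec, inner_vec]; simp

end machine

lemma hadamard_sum {ι : Type} {K K' : Matrix ι ι ℂ} (hK : K.PosSemidef) (hK' : K'.PosSemidef)
    (c : ι →₀ ℂ) :
    0 ≤ ∑ i ∈ c.support, ∑ j ∈ c.support, conj (c i) * (K i j * K' i j) * c j :=
  (hK.hadamard hK').2 c

lemma form_lc {T ι : Type} [CStarAlgebra T] (ω : T →ₗ[ℂ] ℂ) (x y : ι → T) (c : ι →₀ ℂ) :
    ω (star (Finsupp.linearCombination ℂ x c) * Finsupp.linearCombination ℂ y c) =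
      ∑ i ∈ c.support, ∑ j ∈ c.support, conj (c i) * ω (star (x i) * y j) * c j := by
  simp only [Finsupp.linearCombination_apply, Finsupp.sum, star_sum, Finset.sum_mul,
    Finset.mul_sum, map_sum, star_smul, smul_mul_assoc, mul_smul_comm, map_smul, smul_eq_mul,
    RCLike.star_def]
  rw [Finset.sum_comm]
  refine Finset.sum_congr rfl fun i _ => Finset.sum_congr rfl fun j _ => ?_
  ring

/-- extension of a homomorphism -/
theorem exists_hom {M N T T' : Type} [Monoid M] [StarMul M] [CStarAlgebra T] [CStarAlgebra T']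
    {ω : T →ₗ[ℂ] ℂ} {ω' : T' →ₗ[ℂ] ℂ} (hω : IsState ω) (hω' : IsState ω') (hf : Faith ω')
    (L : M →* T) (hL : ∀ m, L (star m) = star (L m)) (hd : Dn L)
    (L' : M →* T') (hL' : ∀ m, L' (star m) = star (L' m)) (J : N → T') (κ : Matrix N N ℂ)
    (hκ : κ.PosSemidef)
    (hJ : ∀ m n n', ω' (star (J n) * L' m * J n') = ω (L m) * κ n n')
    (hd' : Dn (fun p : M × N => L' p.1 * J p.2)) :
    ∃ Φ : T →⋆ₐ[ℂ] T', ∀ m, Φ (L m) = L' m := by
  let e := Finsupp.linearCombination ℂ L
  let f := Finsupp.linearCombination ℂ L'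
  have key : ∀ (z : M →₀ ℂ) (p q : M × N), ω' (star (f z * (L' p.1 * J p.2)) *
      (f z * (L' q.1 * J q.2))) = ω (star (e z * L p.1) * (e z * L q.1)) * κ p.2 q.2 := by
    intro z p q
    simp only [e, f, Finsupp.linearCombination_apply, Finsupp.sum, star_sum, Finset.sum_mul,
      Finset.mul_sum, map_sum, star_smul, smul_mul_assoc, mul_smul_comm, map_smul, smul_eq_mul]
    refine Finset.sum_congr rfl fun i _ => Finset.sum_congr rfl fun j _ => ?_
    have h1 := hJ (star (j * p.1) * (i * q.1)) p.2 q.2
    simp only [map_mul, hL, hL', star_mul, mul_assoc] at h1 ⊢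
    rw [h1]
  have hb : ∀ z, ‖f z‖ ≤ 1 * ‖e z‖ := by
    intro z
    rw [one_mul]
    refine hω'.norm_le_of hf _ _ (norm_nonneg _) (fun y => ?_)
    have hc := hω'.cont_nn
    refine hd'.denseRange.induction_on y (isClosed_le (by fun_prop) (by fun_prop)) (fun c => ?_)
    have h1 := hadamard_sum (hω.psd_bound (e z) ‖e z‖ le_rfl (fun p : M × N => L p.1))
      (hκ.submatrix (fun p : M × N => p.2)) c
    have h2 : f z * Finsupp.linearCombination ℂ (fun p : M × N => L' p.1 * J p.2) c =
        Finsupp.linearCombination ℂ (fun p : M × N => f z * (L' p.1 * J p.2)) c := by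
      simp [Finsupp.linearCombination_apply, Finsupp.sum, Finset.mul_sum]
    have h3 := form_lc ω' (fun p : M × N => f z * (L' p.1 * J p.2))
      (fun p : M × N => f z * (L' p.1 * J p.2)) c
    have h4 := form_lc ω' (fun p : M × N => L' p.1 * J p.2) (fun p : M × N => L' p.1 * J p.2) c
    rw [← h2, hω'.nn_sq'] at h3
    rw [hω'.nn_sq'] at h4
    have h5 : ((‖e z‖ ^ 2 : ℝ) : ℂ) * ((nn ω' (Finsupp.linearCombination ℂ
        (fun p : M × N => L' p.1 * J p.2) c) ^ 2 : ℝ) : ℂ) - ((nn ω' (f z *
        Finsupp.linearCombination ℂ (fun p : M × N => L' p.1 * J p.2) c) ^ 2 : ℝ) : ℂ) =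
        ∑ i ∈ c.support, ∑ j ∈ c.support, conj (c i) * ((Matrix.of fun (i j : M × N) =>
          ((‖e z‖ ^ 2 : ℝ) : ℂ) * ω (star (L i.1) * L j.1) -
          ω (star (e z * L i.1) * (e z * L j.1))) i j *
          (κ.submatrix (fun p : M × N => p.2) (fun p : M × N => p.2)) i j) * c j := by
      rw [h3, h4]
      simp only [Finset.mul_sum, ← Finset.sum_sub_distrib, key, Matrix.of_apply,
        Matrix.submatrix_apply]
      refine Finset.sum_congr rfl fun i _ => Finset.sum_congr rfl fun j _ => ?_
      have h6 := hJ (star i.1 * j.1) i.2 j.2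
      simp only [map_mul, hL, hL', star_mul, mul_assoc] at h6 ⊢
      rw [h6]; ring
    rw [← h5, ← Complex.ofReal_mul, ← Complex.ofReal_sub, Complex.zero_le_real, ← mul_pow,
      sub_nonneg] at h1
    exact (pow_le_pow_iff_left₀ (nn_nonneg _) (mul_nonneg (norm_nonneg _) (nn_nonneg _))
      two_ne_zero).mp h1
  let Φ := f.extendOfNorm e
  have hΦ : ∀ m, Φ (L m) = L' m := by
    intro m
    have := LinearMap.extendOfNorm_eq hd.denseRange ⟨1, hb⟩ (Finsupp.single m 1)
    simpa [e, f] using this
  have hc := Φ.continuous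
  have hmul : ∀ s t, Φ (s * t) = Φ s * Φ t := by
    intro s t
    have h1 : ∀ m, Φ (L m * t) = Φ (L m) * Φ t := by
      intro m
      refine hd.ind (fun t => Φ (L m * t) = Φ (L m) * Φ t) (isClosed_eq (by fun_prop) (by fun_prop))
        (by simp) (fun n => by rw [← map_mul, hΦ, hΦ, hΦ, map_mul]) ?_ ?_ t
      · intro a b ha hb; simp [mul_add, ha, hb]
      · intro c a ha; simp [ha]
    refine hd.ind (fun s => Φ (s * t) = Φ s * Φ t) (isClosed_eq (by fun_prop) (by fun_prop))
        (by simp) h1 ?_ ?_ s
    · intro a b ha hb; simp [add_mul, ha, hb]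
    · intro c a ha; simp [ha]
  have hstar : ∀ t, Φ (star t) = star (Φ t) := by
    intro t
    refine hd.ind (fun t => Φ (star t) = star (Φ t)) (isClosed_eq (by fun_prop) (by fun_prop))
        (by simp) (fun n => by rw [← hL, hΦ, hΦ, hL']) ?_ ?_ t
    · intro a b ha hb; simp [ha, hb]
    · intro c a ha; simp [ha]
  have hone : Φ 1 = 1 := by rw [← map_one L, hΦ, map_one]
  exact ⟨{ AlgHom.ofLinearMap Φ.toLinearMap hone hmul with map_star' := hstar }, hΦ⟩

end Pool.Agent.H846Z.ZO
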