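import Mathlib

/-! Approximately central isometries with orthogonal ranges in the Cuntz algebra. -/

set_option autoImplicit false

open Filter Topology

noncomputable section

namespace Pool.Agent.H846Z.ZO

variable {O : Type} [CStarAlgebra O] (s : ℕ → O)

/-- the canonical endomorphism on `m` letters -/
def lam (m : ℕ) (a : O) : O := ∑ i ∈ Finset.range m, s i * a * star (s i)

/-- sums `∑_{k<n} lam^k (w k)` -/
def XX (m : ℕ) : ℕ → (ℕ → O) → O
  | 0, _ => 0
  | n + 1, w => w 0 + lam s m (XX m n fun k => w (k + 1))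

lemma lam_add (m : ℕ) (a b : O) : lam s m (a + b) = lam s m a + lam s m b := by
  simp [lam, mul_add, add_mul, Finset.sum_add_distrib]

lemma lam_smul (m : ℕ) (c : ℂ) (a : O) : lam s m (c • a) = c • lam s m a := by
  simp [lam, Finset.smul_sum]

lemma lam_zero (m : ℕ) : lam s m 0 = 0 := by simp [lam]

lemma lam_sub (m : ℕ) (a b : O) : lam s m (a - b) = lam s m a - lam s m b := by
  simp [lam, mul_sub, sub_mul, Finset.sum_sub_distrib]

lemma lam_star (m : ℕ) (a : O) : star (lam s m a) = lam s m (star a) := by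
  simp [lam, star_sum, mul_assoc]

lemma XX_sub (m n : ℕ) (w w' : ℕ → O) :
    XX s m n (fun k => w k - w' k) = XX s m n w - XX s m n w' := by
  induction n generalizing w w' with
  | zero => simp [XX]
  | succ n ih => simp only [XX]; rw [ih, lam_sub]; abel

lemma XX_congr (m n : ℕ) (w w' : ℕ → O) (h : ∀ k < n, w k = w' k) : XX s m n w = XX s m n w' := by
  induction n generalizing w w' with
  | zero => simp [XX]
  | succ n ih => simp only [XX]; rw [h 0 (by omega), ih _ _ fun k hk => h (k + 1) (by omega)]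

lemma XX_zero (m n : ℕ) : XX s m n (fun _ => 0) = 0 := by
  induction n with
  | zero => simp [XX]
  | succ n ih => simp only [XX]; rw [ih, lam_zero, add_zero]

lemma XX_last (m n : ℕ) (w : ℕ → O) (h : w n = 0) : XX s m (n + 1) w = XX s m n w := by
  induction n generalizing w with
  | zero => simp [XX, h, lam_zero]
  | succ n ih => rw [XX, ih _ h]; rfl

lemma XX_tele (m n : ℕ) (c : ℕ → ℂ) (h : c n = 0) :
    XX s m n (fun k => c k • (1 : O) - c (k + 1) • lam s m 1) = c 0 • 1 := by
  induction n generalizing c with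
  | zero => simp [XX, h]
  | succ n ih =>
    rw [XX, ih (fun k => c (k + 1)) h, lam_smul]; simp

variable {s} (hs : ∀ i j, star (s i) * s j = if i = j then 1 else 0)
include hs

lemma star_lam {m i : ℕ} (hi : i < m) (a : O) : star (s i) * lam s m a = a * star (s i) := by
  simp only [lam, Finset.mul_sum, ← mul_assoc, hs]
  rw [Finset.sum_eq_single i]
  · simp
  · intro j _ hj; simp [hj.symm]
  · intro h; exact absurd (Finset.mem_range.mpr hi) h

lemma star_lam' {m i : ℕ} (hi : m ≤ i) (a : O) : star (s i) * lam s m a = 0 := by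
  simp only [lam, Finset.mul_sum, ← mul_assoc, hs]
  refine Finset.sum_eq_zero fun j hj => ?_
  have : i ≠ j := by have := Finset.mem_range.mp hj; omega
  simp [this]

lemma lam_s {m i : ℕ} (hi : i < m) (a : O) : lam s m a * s i = s i * a := by
  have := congrArg star (star_lam hs hi (star a))
  simpa [lam_star] using this

lemma lam_mul (m : ℕ) (a b : O) : lam s m a * lam s m b = lam s m (a * b) := by
  conv_lhs => rw [lam, Finset.sum_mul]
  refine Finset.sum_congr rfl fun i hi => ?_
  rw [mul_assoc, star_lam hs (Finset.mem_range.mp hi)]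
  simp [mul_assoc]

lemma XX_mul (m n : ℕ) (w w' : ℕ → O) (h : ∀ k a, star (w k) * lam s m a = 0)
    (h' : ∀ k a, star (w' k) * lam s m a = 0) :
    star (XX s m n w) * XX s m n w' = XX s m n (fun k => star (w k) * w' k) := by
  induction n generalizing w w' with
  | zero => simp [XX]
  | succ n ih =>
    simp only [XX]
    rw [← ih _ _ (fun k => h (k + 1)) (fun k => h' (k + 1)), star_add, add_mul, mul_add, mul_add,
      h, lam_star, lam_mul hs]
    have := congrArg star (h' 0 (XX s m n fun k => w (k + 1)))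
    rw [star_mul, star_star, lam_star, star_zero] at this
    rw [this]; simp

lemma norm_lam (m : ℕ) (e : ℂ) (y : O) (δ : ℝ) (he : ‖e‖ ≤ δ) (hy : ‖y‖ ≤ δ) :
    ‖e • (1 - lam s m 1) + lam s m y‖ ≤ δ := by
  let Ψ : ℂ × O →⋆ₙₐ[ℂ] O :=
    { toFun := fun p => p.1 • (1 - lam s m 1) + lam s m p.2
      map_smul' := fun c p => by simp [lam_smul, smul_smul]
      map_zero' := by simp [lam_zero]
      map_add' := fun p q => by
        simp only [Prod.fst_add, Prod.snd_add, lam_add, add_smul]; abel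
      map_mul' := fun p q => by
        simp only [Prod.fst_mul, Prod.snd_mul, add_mul, mul_add, smul_mul_assoc, mul_smul_comm,
          sub_mul, mul_sub, one_mul, mul_one, lam_mul hs]
        simp [smul_smul, mul_comm]
      map_star' := fun p => by simp [lam_star] }
  have := NonUnitalStarAlgHom.norm_apply_le Ψ (e, y)
  exact this.trans (by simp [Prod.norm_def, he, hy])

lemma norm_XX (m n : ℕ) (v : ℕ → O) (e : ℕ → ℂ) (δ : ℝ)
    (h1 : ∀ k < n, v k = e k • (1 - lam s m 1)) (h2 : v n = e n • 1) (h3 : ∀ k ≤ n, ‖e k‖ ≤ δ) :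
    ‖XX s m (n + 1) v‖ ≤ δ := by
  induction n generalizing v e with
  | zero =>
    simp only [XX, lam_zero, add_zero, h2, norm_smul]
    have : ‖(1 : O)‖ ≤ 1 := by
      rcases subsingleton_or_nontrivial O with h | h
      · simp [Subsingleton.elim (1 : O) 0]
      · simp
    exact (mul_le_of_le_one_right (norm_nonneg _) this).trans (h3 0 le_rfl)
  | succ n ih =>
    rw [XX, h1 0 (by omega)]
    exact norm_lam hs m _ _ δ (h3 0 (by omega)) (ih _ (fun k => e (k + 1))
      (fun k hk => h1 (k + 1) (by omega)) h2 fun k hk => h3 (k + 1) (by omega))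

omit hs in
lemma norm_isom {x : O} (hx : star x * x = 1) : ‖x‖ ≤ 1 := by
  have h1 : ‖(1 : O)‖ ≤ 1 := by
    rcases subsingleton_or_nontrivial O with h | h
    · simp [Subsingleton.elim (1 : O) 0]
    · simp
  have := CStarRing.norm_star_mul_self (x := x)
  rw [hx] at this
  nlinarith [norm_nonneg x]

/-- first profile -/
def pa (N k : ℕ) : ℝ := if k < N then √(1 / N) else 0

/-- second profile -/
def pg (N k : ℕ) : ℝ := √(1 - (k + 1) / N)

variable (s) in
/-- the building blocks -/
def ww0 (N j k : ℕ) : O :=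
  (pa N k : ℂ) • s (N + j) + (pg N k : ℂ) • (s (N + j + 1) * (1 - lam s N 1))

omit hs in
lemma blk (N j j' : ℕ) (a b a' b' : ℝ) :
    star ((a : ℂ) • s (N + j) + (b : ℂ) • (s (N + j + 1) * (1 - lam s N 1))) *
      ((a' : ℂ) • s (N + j') + (b' : ℂ) • (s (N + j' + 1) * (1 - lam s N 1))) =
    ((a * a' : ℝ) : ℂ) • (star (s (N + j)) * s (N + j')) +
    ((a * b' : ℝ) : ℂ) • (star (s (N + j)) * s (N + j' + 1) * (1 - lam s N 1)) +
    ((b * a' : ℝ) : ℂ) • ((1 - lam s N 1) * (star (s (N + j + 1)) * s (N + j'))) +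
    ((b * b' : ℝ) : ℂ) • ((1 - lam s N 1) * (star (s (N + j + 1)) * s (N + j' + 1)) *
      (1 - lam s N 1)) := by
  have : star (1 - lam s N 1) = 1 - lam s N 1 := by simp [lam_star]
  simp only [star_add, star_smul, star_mul, this, RCLike.star_def, Complex.conj_ofReal, add_mul,
    mul_add, smul_mul_assoc, mul_smul_comm, mul_assoc]
  push_cast
  module

lemma pp (N : ℕ) : (1 - lam s N 1) * (1 - lam s N 1) = 1 - lam s N 1 := by
  simp [mul_sub, sub_mul, lam_mul hs]

lemma blk_self (N j : ℕ) (a b : ℝ) :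
    star ((a : ℂ) • s (N + j) + (b : ℂ) • (s (N + j + 1) * (1 - lam s N 1))) *
      ((a : ℂ) • s (N + j) + (b : ℂ) • (s (N + j + 1) * (1 - lam s N 1))) =
    ((a ^ 2 : ℝ) : ℂ) • (1 : O) + ((b ^ 2 : ℝ) : ℂ) • (1 - lam s N 1) := by
  rw [blk]
  simp [hs, pp hs, sq]

lemma blk_lam (N j : ℕ) (a b : ℝ) (x : O) :
    star ((a : ℂ) • s (N + j) + (b : ℂ) • (s (N + j + 1) * (1 - lam s N 1))) * lam s N x = 0 := by
  simp [add_mul, mul_assoc, star_lam' hs (show N ≤ N + j by omega),
    star_lam' hs (show N ≤ N + j + 1 by omega)]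

variable (s) in
/-- the isometries -/
def xx (n j : ℕ) : O := XX s (n + 1) (n + 1) (ww0 s (n + 1) j)

lemma xx_isom (n j : ℕ) : star (xx s n j) * xx s n j = 1 := by
  rw [xx, XX_mul hs _ _ (ww0 s (n + 1) j) (ww0 s (n + 1) j) (fun k => blk_lam hs _ _ _ _)
    (fun k => blk_lam hs _ _ _ _)]
  have h := XX_tele s (n + 1) (n + 1) (fun k => ((1 - (k : ℝ) / (n + 1 : ℕ) : ℝ) : ℂ)) (by
    rw [div_self (by positivity)]; simp)
  rw [XX_congr s _ _ _ _ fun k hk => ?_, h]
  · simp
  · rw [ww0, blk_self hs, pa, pg, if_pos hk, Real.sq_sqrt (by positivity), Real.sq_sqrt]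
    · push_cast
      module
    · rw [sub_nonneg, div_le_one (by positivity)]
      exact_mod_cast hk

lemma xx_orth (n : ℕ) : star (xx s n 0) * xx s n 2 = 0 := by
  rw [xx, xx, XX_mul hs _ _ (ww0 s (n + 1) 0) (ww0 s (n + 1) 2) (fun k => blk_lam hs _ _ _ _)
    (fun k => blk_lam hs _ _ _ _),
    XX_congr s _ _ _ (fun _ => 0) fun k hk => ?_, XX_zero]
  rw [ww0, ww0, blk]
  simp [hs]

lemma xx_shift (n j : ℕ) : ‖xx s n j - XX s (n + 1) n (fun k => ww0 s (n + 1) j (k + 1))‖ ≤
    √(1 / (n + 1 : ℕ)) := by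
  have h0 : pg (n + 1) n = 0 := by
    rw [pg]; push_cast; rw [div_self (by positivity)]; simp
  have h1 : pg (n + 1) (n + 1) = 0 := by
    rw [pg]
    apply Real.sqrt_eq_zero_of_nonpos
    rw [sub_nonpos, le_div_iff₀ (by positivity)]; linarith
  rw [← XX_last s (n + 1) n (fun k => ww0 s (n + 1) j (k + 1)) (by simp [ww0, pa, h1]), xx,
    ← XX_sub]
  have hd : ∀ k, ww0 s (n + 1) j k - ww0 s (n + 1) j (k + 1) =
      ((pa (n + 1) k - pa (n + 1) (k + 1) : ℝ) : ℂ) • s (n + 1 + j) +
      ((pg (n + 1) k - pg (n + 1) (k + 1) : ℝ) : ℂ) • (s (n + 1 + j + 1) * (1 - lam s (n + 1) 1)) := by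
    intro k
    simp only [ww0]; push_cast; module
  simp only [hd]
  apply Real.le_sqrt_of_sq_le
  rw [sq, ← CStarRing.norm_star_mul_self,
    XX_mul hs _ _ _ _ (fun k => blk_lam hs _ _ _ _) (fun k => blk_lam hs _ _ _ _)]
  simp only [blk_self hs]
  refine norm_XX hs _ _ _ (fun k => if k < n then
    (((pg (n + 1) k - pg (n + 1) (k + 1)) ^ 2 : ℝ) : ℂ) else ((1 / (n + 1 : ℕ) : ℝ) : ℂ)) _
    (fun k hk => ?_) ?_ (fun k hk => ?_)
  · simp [pa, hk, show k < n + 1 by omega]
  · rw [h0, h1, pa, pa, if_pos (by omega), if_neg (by omega), sub_zero,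
      Real.sq_sqrt (by positivity)]
    simp
  · split_ifs with h
    · rw [Complex.norm_real, Real.norm_of_nonneg (sq_nonneg _), pg, pg]
      have hN : (0 : ℝ) < (n + 1 : ℕ) := by positivity
      have a1 : (0 : ℝ) ≤ 1 - (((k + 1 : ℕ) : ℝ) + 1) / (n + 1 : ℕ) := by
        rw [sub_nonneg, div_le_one hN]; exact_mod_cast (by omega : k + 1 + 1 ≤ n + 1)
      have a2 : 1 - ((k : ℝ) + 1) / (n + 1 : ℕ) =
          1 - (((k + 1 : ℕ) : ℝ) + 1) / (n + 1 : ℕ) + 1 / (n + 1 : ℕ) := by push_cast; ring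
      have a3 : (0 : ℝ) < 1 / (n + 1 : ℕ) := by positivity
      rw [a2]
      generalize (1 - (((k + 1 : ℕ) : ℝ) + 1) / (n + 1 : ℕ)) = t at a1 ⊢
      generalize (1 / ((n + 1 : ℕ) : ℝ)) = d at a3 ⊢
      have b1 := Real.sq_sqrt a1
      have b2 := Real.sq_sqrt (show 0 ≤ t + d by linarith)
      have b3 : √t ≤ √(t + d) := Real.sqrt_le_sqrt (by linarith)
      have b4 := Real.sqrt_nonneg t
      nlinarith
    · rw [Complex.norm_real, Real.norm_of_nonneg (by positivity)]

lemma xx_comm (n j i : ℕ) (hi : i ≤ n) :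
    ‖xx s n j * s i - s i * xx s n j‖ ≤ 2 * √(1 / (n + 1 : ℕ)) ∧
    ‖xx s n j * star (s i) - star (s i) * xx s n j‖ ≤ 2 * √(1 / (n + 1 : ℕ)) := by
  have h1 := xx_shift hs n j
  have hi' : i < n + 1 := by omega
  have hx : xx s n j = ww0 s (n + 1) j 0 +
    lam s (n + 1) (XX s (n + 1) n (fun k => ww0 s (n + 1) j (k + 1))) := rfl
  generalize XX s (n + 1) n (fun k => ww0 s (n + 1) j (k + 1)) = y at h1 hx
  have hn : ∀ k, ‖s k‖ ≤ 1 := fun k => norm_isom (by simp [hs])
  have hq := Real.sqrt_nonneg (1 / ((n + 1 : ℕ) : ℝ))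
  constructor
  · have e : xx s n j * s i - s i * xx s n j =
        (pa (n + 1) 0 : ℂ) • (s (n + 1 + j) * s i) - s i * (xx s n j - y) := by
      rw [mul_sub]
      nth_rewrite 1 [hx]
      simp only [ww0, add_mul, smul_mul_assoc, mul_assoc, sub_mul, lam_s hs hi']
      simp
      abel
    rw [e]
    refine (norm_sub_le _ _).trans ?_
    have a1 : ‖(pa (n + 1) 0 : ℂ) • (s (n + 1 + j) * s i)‖ ≤ √(1 / (n + 1 : ℕ)) := by
      rw [norm_smul, pa, if_pos (by omega), Complex.norm_real, Real.norm_of_nonneg hq]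
      refine mul_le_of_le_one_right hq ((norm_mul_le _ _).trans ?_)
      exact mul_le_one₀ (hn _) (norm_nonneg _) (hn _)
    have a2 : ‖s i * (xx s n j - y)‖ ≤ √(1 / (n + 1 : ℕ)) :=
      (norm_mul_le _ _).trans ((mul_le_of_le_one_left (norm_nonneg _) (hn _)).trans h1)
    linarith
  · have e : xx s n j * star (s i) - star (s i) * xx s n j = (xx s n j - y) * star (s i) := by
      rw [sub_mul]
      nth_rewrite 2 [hx]
      have b1 : i ≠ n + 1 + j := by omega
      have b2 : i ≠ n + 1 + j + 1 := by omega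
      simp [ww0, mul_add, star_lam hs hi', ← mul_assoc, hs, b1, b2]
    rw [e]
    refine (norm_mul_le _ _).trans ?_
    rw [norm_star]
    refine ((mul_le_of_le_one_right (norm_nonneg _) (hn _)).trans h1).trans (by linarith)

lemma xx_central (hg : (StarAlgebra.adjoin ℂ (Set.range s)).topologicalClosure = ⊤) (j : ℕ)
    (a : O) : Tendsto (fun n => xx s n j * a - a * xx s n j) atTop (𝓝 0) := by
  have hn : ∀ n, ‖xx s n j‖ ≤ 1 := fun n => norm_isom (xx_isom hs n j)
  have h0 : Tendsto (fun n : ℕ => 2 * √(1 / ((n + 1 : ℕ) : ℝ))) atTop (𝓝 0) := by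
    have := (tendsto_one_div_add_atTop_nhds_zero_nat (𝕜 := ℝ)).sqrt.const_mul 2
    simpa using this
  have h1 : ∀ a ∈ StarAlgebra.adjoin ℂ (Set.range s),
      Tendsto (fun n => xx s n j * a - a * xx s n j) atTop (𝓝 0) ∧
      Tendsto (fun n => xx s n j * star a - star a * xx s n j) atTop (𝓝 0) := by
    have hm : ∀ a b : O, Tendsto (fun n => xx s n j * a - a * xx s n j) atTop (𝓝 0) →
        Tendsto (fun n => xx s n j * b - b * xx s n j) atTop (𝓝 0) →
        Tendsto (fun n => xx s n j * (a * b) - (a * b) * xx s n j) atTop (𝓝 0) := by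
      intro a b ha hb
      have := (ha.mul_const b).add (hb.const_mul a)
      simp only [zero_mul, mul_zero, add_zero] at this
      exact this.congr fun n => by noncomm_ring
    have hadd : ∀ a b : O, Tendsto (fun n => xx s n j * a - a * xx s n j) atTop (𝓝 0) →
        Tendsto (fun n => xx s n j * b - b * xx s n j) atTop (𝓝 0) →
        Tendsto (fun n => xx s n j * (a + b) - (a + b) * xx s n j) atTop (𝓝 0) := by
      intro a b ha hb
      have := ha.add hb
      simp only [add_zero] at this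
      exact this.congr fun n => by noncomm_ring
    intro a ha
    induction ha using StarAlgebra.adjoin_induction with
    | mem x hx =>
      obtain ⟨i, rfl⟩ := hx
      exact ⟨squeeze_zero_norm' ((eventually_ge_atTop i).mono fun n hn => (xx_comm hs n j i hn).1) h0,
        squeeze_zero_norm' ((eventually_ge_atTop i).mono fun n hn => (xx_comm hs n j i hn).2) h0⟩
    | algebraMap r => simp [Algebra.algebraMap_eq_smul_one]
    | add x y _ _ hx hy => rw [star_add]; exact ⟨hadd _ _ hx.1 hy.1, hadd _ _ hx.2 hy.2⟩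
    | mul x y _ _ hx hy => rw [star_mul]; exact ⟨hm _ _ hx.1 hy.1, hm _ _ hy.2 hx.2⟩
    | star x _ hx => rw [star_star]; exact hx.symm
  have ha : a ∈ (StarAlgebra.adjoin ℂ (Set.range s)).topologicalClosure := by rw [hg]; trivial
  rw [NormedAddGroup.tendsto_nhds_zero]
  intro ε hε
  obtain ⟨b, hb, hab⟩ := Metric.mem_closure_iff.mp ha (ε / 3) (by positivity)
  rw [dist_eq_norm] at hab
  filter_upwards [NormedAddGroup.tendsto_nhds_zero.mp (h1 b hb).1 (ε / 3) (by positivity)] with n h
  have e : xx s n j * a - a * xx s n j = (xx s n j * b - b * xx s n j) + xx s n j * (a - b) -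
    (a - b) * xx s n j := by noncomm_ring
  rw [e]
  have a1 := (norm_mul_le (xx s n j) (a - b)).trans
    (mul_le_of_le_one_left (norm_nonneg _) (hn n))
  have a2 := (norm_mul_le (a - b) (xx s n j)).trans
    (mul_le_of_le_one_right (norm_nonneg _) (hn n))
  have a3 := norm_sub_le ((xx s n j * b - b * xx s n j) + xx s n j * (a - b)) ((a - b) * xx s n j)
  have a4 := norm_add_le (xx s n j * b - b * xx s n j) (xx s n j * (a - b))
  linarith

end Pool.Agent.H846Z.ZO
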