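import Pool.Agent.H846Z.ZO.Alg
import Pool.Agent.H846Z.ZO.Oinf
import Pool.Agent.H846Z.ZO.Defs

/-! The counterexample. -/

set_option autoImplicit false
set_option linter.style.haveILetI false

open scoped ComplexOrder ComplexConjugate InnerProductSpace TensorProduct
open Filter Topology

noncomputable section

namespace Pool.Agent.H846Z.ZO

section

variable {B : Type} [CStarAlgebra B]

open Complex in
theorem im_eq_zero_of_state (g : B →L[ℂ] ℂ) (hg : ∀ y, ‖g y‖ ≤ ‖y‖) (h1 : g 1 = 1) {h : B}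
    (hh : IsSelfAdjoint h) : (g h).im = 0 := by
  have key : ∀ r : ℝ, (g h).im ^ 2 + 2 * (g h).im * r ≤ ‖h‖ ^ 2 := by
    intro r
    have e1 : star (h + ((r : ℂ) * I) • (1 : B)) * (h + ((r : ℂ) * I) • (1 : B))
        = h * h + ((r ^ 2 : ℝ) : ℂ) • (1 : B) := by
      rw [star_add, hh.star_eq, star_smul, star_one]
      simp only [add_mul, mul_add, smul_mul_assoc, mul_smul_comm, one_mul, mul_one]
      have a1 : star ((r : ℂ) * I) = -((r : ℂ) * I) := by simp
      have a2 : ((r : ℂ) * I) * -((r : ℂ) * I) = ((r ^ 2 : ℝ) : ℂ) := by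
        push_cast; linear_combination (-(r : ℂ) ^ 2) * I_mul_I
      rw [a1, smul_add, smul_smul, a2, neg_smul]
      abel
    have e2 : ‖h + ((r : ℂ) * I) • (1 : B)‖ ^ 2 ≤ ‖h‖ ^ 2 + r ^ 2 := by
      rw [sq, ← CStarRing.norm_star_mul_self, e1]
      refine (norm_add_le _ _).trans (add_le_add ?_ ?_)
      · rw [sq]; exact norm_mul_le _ _
      · rw [norm_smul]
        have : ‖(1 : B)‖ ≤ 1 := norm_isom (by simp)
        rw [Complex.norm_real, Real.norm_eq_abs, abs_of_nonneg (sq_nonneg r)]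
        nlinarith [sq_nonneg r]
    have e3 : ‖g (h + ((r : ℂ) * I) • (1 : B))‖ ^ 2 ≤ ‖h‖ ^ 2 + r ^ 2 :=
      (pow_le_pow_left₀ (norm_nonneg _) (hg _) 2).trans e2
    rw [map_add, map_smul, h1, Complex.sq_norm, Complex.normSq_apply] at e3
    simp at e3
    nlinarith [mul_self_nonneg (g h).re]
  by_contra hne
  have := key ((‖h‖ ^ 2 + 1) / (2 * (g h).im))
  have e : 2 * (g h).im * ((‖h‖ ^ 2 + 1) / (2 * (g h).im)) = ‖h‖ ^ 2 + 1 := by field_simp
  rw [e] at this
  nlinarith [sq_nonneg (g h).im]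

theorem isState_of_norm (g : B →L[ℂ] ℂ) (hg : ∀ y, ‖g y‖ ≤ ‖y‖) (h1 : g 1 = 1) :
    IsState g.toLinearMap := by
  letI := CStarAlgebra.spectralOrder B
  haveI := CStarAlgebra.spectralOrderedRing B
  refine ⟨h1, fun x => ?_⟩
  have hy : 0 ≤ star x * x := star_mul_self_nonneg x
  generalize star x * x = y at hy
  have him := im_eq_zero_of_state g hg h1 (IsSelfAdjoint.of_nonneg hy)
  have h2 : y ≤ algebraMap ℝ B ‖y‖ := (IsSelfAdjoint.of_nonneg hy).le_algebraMap_norm_self
  have h3 : ‖algebraMap ℝ B ‖y‖ - y‖ ≤ ‖algebraMap ℝ B ‖y‖‖ :=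
    CStarAlgebra.norm_le_norm_of_nonneg_of_le (sub_nonneg.2 h2) (sub_le_self _ hy)
  have h4 : ‖algebraMap ℝ B ‖y‖‖ ≤ ‖y‖ := by
    rcases subsingleton_or_nontrivial B with hB | hB
    · simp [Subsingleton.elim y 0]
    · simp
  have h5 : g (algebraMap ℝ B ‖y‖) = ‖y‖ := by
    rw [Algebra.algebraMap_eq_smul_one, ← Complex.coe_smul, map_smul, h1]; simp
  have h6 := (hg _).trans (h3.trans h4)
  rw [map_sub, h5] at h6
  have h7 := (Complex.re_le_norm _).trans h6
  rw [Complex.le_def]
  simp at h7 ⊢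
  exact ⟨h7, him.symm⟩

lemma isUnit_of_near {j : B} (h : ‖1 - j‖ < 1) : IsUnit j := by
  have := (Units.oneSub (1 - j) h).isUnit
  simpa using this

theorem AllF.ideal (hB : AllF B) {c : B} (hc : c ≠ 0) :
    ∃ (n : ℕ) (p q : Fin n → B), ∑ i, p i * c * q i = 1 := by
  let J := Submodule.span ℂ (Set.range fun p : B × B => p.1 * c * p.2)
  have hJ : ∀ a, ∀ j ∈ J, a * j ∈ J := by
    intro a x hx
    induction hx using Submodule.span_induction with
    | mem x hx =>
      obtain ⟨p, rfl⟩ := hx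
      exact Submodule.subset_span ⟨(a * p.1, p.2), by simp [mul_assoc]⟩
    | zero => simp
    | add y z _ _ hy hz => rw [mul_add]; exact add_mem hy hz
    | smul c y _ hy => rw [mul_smul_comm]; exact Submodule.smul_mem _ c hy
  have h1 : (1 : B) ∈ J := by
    by_contra h1
    have h2 : ∀ j ∈ J, 1 ≤ ‖1 - j‖ := by
      intro j hj
      by_contra h
      obtain ⟨v, rfl⟩ := isUnit_of_near (not_le.mp h)
      exact h1 (by simpa using hJ (↑v⁻¹) _ hj)
    have h3 : 1 ≤ ‖J.mkQ 1‖ := by
      by_contra h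
      obtain ⟨m, hm, hm'⟩ := QuotientAddGroup.norm_lt_iff.mp (not_le.mp h)
      have : 1 - m ∈ J := by
        rw [← Submodule.Quotient.eq]; exact hm.symm
      have := h2 _ this
      simp only [sub_sub_cancel] at this
      linarith
    obtain ⟨g, hg1, hg2⟩ := exists_dual_vector ℂ (J.mkQ 1) (by linarith)
    have hq : ∀ y, ‖J.mkQ y‖ ≤ ‖y‖ := fun y => Submodule.Quotient.norm_mk_le J y
    have h4 : ‖J.mkQ 1‖ = 1 := le_antisymm ((hq 1).trans (norm_isom (by simp))) h3
    let f : B →L[ℂ] ℂ := g.comp (J.mkQ.mkContinuous 1 fun y => by simpa using hq y)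
    have hf : ∀ y, f y = g (J.mkQ y) := fun y => rfl
    have hs := isState_of_norm f (fun y => by
      rw [hf]
      exact (g.le_opNorm _).trans (by rw [hg1, one_mul]; exact hq y)) (by rw [hf, hg2, h4]; simp)
    refine hc (hB _ hs c fun x y => ?_)
    show g (J.mkQ _) = 0
    rw [Submodule.mkQ_apply, (Submodule.Quotient.mk_eq_zero J).mpr
      (Submodule.subset_span ⟨(x, y), rfl⟩), map_zero]
  obtain ⟨n, f, g, h⟩ := Submodule.mem_span_set'.mp h1
  choose p hp using fun i => (g i).2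
  refine ⟨n, fun i => f i • (p i).1, fun i => (p i).2, ?_⟩
  rw [← h]
  exact Finset.sum_congr rfl fun i _ => by rw [← hp i]; simp

lemma allF_of_simple (h : Defs.IsSimple B) : AllF B := by
  intro ψ hψ t ht
  let I := TwoSidedIdeal.mk' {t : B | ∀ x y, ψ (x * t * y) = 0} (by simp)
    (fun {a b} ha hb x y => by simp [mul_add, add_mul, ha x y, hb x y])
    (fun {a} ha x y => by simp [ha x y])
    (fun {a b} hb x y => by simpa [mul_assoc] using hb (x * a) y)
    (fun {a b} ha x y => by simpa [mul_assoc] using ha x (b * y))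
  have hI : ∀ t, t ∈ I ↔ ∀ x y, ψ (x * t * y) = 0 := fun t => TwoSidedIdeal.mem_mk' _ _ _ _ _ _ _
  have hc := hψ.cont
  rcases h.2 I (by
    have : (I : Set B) = ⋂ x, ⋂ y, {t | ψ (x * t * y) = 0} := by ext t; simp [hI]
    rw [this]
    exact isClosed_iInter fun x => isClosed_iInter fun y =>
      isClosed_eq (by fun_prop) continuous_const) with e | e
  · have := (hI t).mpr ht
    rwa [e, TwoSidedIdeal.mem_bot] at this
  · have := (hI 1).mp (by rw [e]; trivial) 1 1
    simp [hψ.one] at this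

/-- the strong form of pure infiniteness -/
def PI (B : Type) [CStarAlgebra B] : Prop := ∀ z : B, z ≠ 0 → ∃ r s, r * z * s = 1

lemma PI.simple [Nontrivial B] (h : PI B) : Defs.IsSimple B := by
  refine ⟨inferInstance, fun I _ => ?_⟩
  by_cases e : I = ⊥
  · exact Or.inl e
  · right
    obtain ⟨z, hz, hz0⟩ : ∃ z ∈ I, z ≠ 0 := by
      by_contra hc
      push Not at hc
      exact e (eq_bot_iff.mpr fun z hz => (TwoSidedIdeal.mem_bot B).mpr (hc z hz))
    obtain ⟨r, s, hrs⟩ := h z hz0
    rw [← TwoSidedIdeal.one_mem_iff, ← hrs]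
    exact I.mul_mem_right _ _ (I.mul_mem_left _ _ hz)

lemma PI.purelyInfinite (h : PI B) {v : B} (hv : star v * v = 1) (hv' : v * star v ≠ 1) :
    Defs.IsPurelyInfinite B := by
  letI := CStarAlgebra.spectralOrder B
  haveI := CStarAlgebra.spectralOrderedRing B
  intro H hH hne
  have hher : ∀ a ∈ H, ∀ b, 0 ≤ b → b ≤ a → b ∈ H := fun a ha b h0 h1 =>
    hH.2 a ha b (CStarAlgebra.nonneg_iff_eq_star_mul_self.mp h0)
      (CStarAlgebra.nonneg_iff_eq_star_mul_self.mp (sub_nonneg.mpr h1))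
  obtain ⟨z, hz, hz0⟩ : ∃ z ∈ H, z ≠ 0 := by
    by_contra hc
    push Not at hc
    exact hne (eq_bot_iff.mpr fun z hz => by rw [hc z hz]; exact zero_mem _)
  obtain ⟨r, s, hrs⟩ := h (star z) (by simpa using hz0)
  have hrs' : star s * z * star r = 1 := by simpa [mul_assoc] using congrArg star hrs
  -- positive elements `z y z*` lie in `H`
  have hpos : ∀ y : B, 0 ≤ y → z * y * star z ∈ H := fun y hy =>
    hher (‖y‖ • (z * star z)) (by
        rw [← Complex.coe_smul]
        exact SMulMemClass.smul_mem _ (mul_mem hz (star_mem hz))) _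
      (star_right_conjugate_nonneg hy z)
      (CStarAlgebra.star_right_conjugate_le_norm_smul (IsSelfAdjoint.of_nonneg hy))
  have hall : ∀ y : B, z * y * star z ∈ H := by
    intro y
    have hy : y ∈ Submodule.span ℂ {a : B | 0 ≤ a} := by rw [CStarAlgebra.span_nonneg]; trivial
    induction hy using Submodule.span_induction with
    | mem x hx => exact hpos x hx
    | zero => simp
    | add y z _ _ hy hz => rw [mul_add, add_mul]; exact add_mem hy hz
    | smul c y _ hy => rw [mul_smul_comm, smul_mul_assoc]; exact SMulMemClass.smul_mem c hy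
  -- `a = z r*` is left invertible
  set a := z * star r with ha
  have hla : star s * a = 1 := by rw [ha, ← mul_assoc, hrs']
  have hu : IsUnit (star a * a) := by
    have h1 : (1 : B) ≤ ‖s * star s‖ • (star a * a) := by
      have := CStarAlgebra.star_left_conjugate_le_norm_smul (a := a) (b := s * star s)
        (IsSelfAdjoint.mul_star_self s)
      have e : star a * (s * star s) * a = 1 := by
        rw [mul_assoc, mul_assoc, hla, mul_one]
        simpa using congrArg star hla
      rwa [e] at this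
    have h2 := CStarAlgebra.isUnit_of_le 1 h1
    rw [Algebra.smul_def] at h2
    exact ((Commute.isUnit_mul_iff (Algebra.commutes _ _)).mp h2).2
  have hp : 0 ≤ star a * a := star_mul_self_nonneg a
  obtain ⟨c, hc⟩ := (CFC.isUnit_sqrt_iff _ hp).mpr hu
  have hc1 : (c : B) * c = star a * a := by rw [hc]; exact CFC.sqrt_mul_sqrt_self _ hp
  have hc2 : star (c : B) = c := by rw [hc]; exact (IsSelfAdjoint.of_nonneg (CFC.sqrt_nonneg _)).star_eq
  have hc3 : star (↑c⁻¹ : B) = ↑c⁻¹ := by
    have : star (↑c⁻¹ : B) * c = 1 := by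
      rw [← hc2, ← star_mul]; simp
    calc star (↑c⁻¹ : B) = star (↑c⁻¹ : B) * c * ↑c⁻¹ := by simp [mul_assoc]
      _ = ↑c⁻¹ := by rw [this, one_mul]
  obtain ⟨w, hw, hwH⟩ : ∃ w : B, star w * w = 1 ∧ ∀ y, w * y * star w ∈ H := by
    refine ⟨a * ↑c⁻¹, ?_, fun y => ?_⟩
    · rw [star_mul, hc3, mul_assoc, ← mul_assoc (star a), ← hc1]; simp [mul_assoc]
    · have := hall (star r * ↑c⁻¹ * y * star (star r * ↑c⁻¹))
      simpa [ha, mul_assoc] using this
  have hw' : ∀ y, star w * (w * y) = y := fun y => by rw [← mul_assoc, hw, one_mul]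
  have hv2 : ∀ y, star v * (v * y) = y := fun y => by rw [← mul_assoc, hv, one_mul]
  refine ⟨w * star w, by simpa using hwH 1, by simp, by simp [mul_assoc, hw'],
    w * v * star w, hwH v, by simp [mul_assoc, hw', hv2], by simp [mul_assoc, hw'], fun e => hv' ?_⟩
  have := congrArg (fun x => star w * x * w) e
  simpa [mul_assoc, hw', hw] using this

lemma Dn.tendsto {M X : Type} [NormedAddCommGroup X] [NormedSpace ℂ X] {L : M → B} (h : Dn L)
    (F : ℕ → B →L[ℂ] X) (G : B →L[ℂ] X) (hF : ∀ k t, ‖F k t‖ ≤ ‖t‖)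
    (hL : ∀ m, ∀ᶠ k in atTop, F k (L m) = G (L m)) (t : B) :
    Tendsto (fun k => F k t) atTop (𝓝 (G t)) := by
  have h1 : ∀ t ∈ Submodule.span ℂ (Set.range L), ∀ᶠ k in atTop, F k t = G t := by
    intro t ht
    induction ht using Submodule.span_induction with
    | mem x hx => obtain ⟨m, rfl⟩ := hx; exact hL m
    | zero => simp
    | add x y _ _ hx hy => filter_upwards [hx, hy] with k a b; simp [a, b]
    | smul c x _ hx => filter_upwards [hx] with k a; simp [a]
  rw [Metric.tendsto_nhds]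
  intro ε hε
  obtain ⟨b, hb, hab⟩ := Metric.mem_closure_iff.mp (h t) (ε / (‖G‖ + 2)) (by positivity)
  rw [dist_eq_norm, lt_div_iff₀ (by positivity)] at hab
  filter_upwards [h1 b hb] with k hk
  have e : F k t - G t = F k (t - b) - G (t - b) := by simp [hk]
  rw [dist_eq_norm, e]
  have a1 := norm_sub_le (F k (t - b)) (G (t - b))
  have a2 := hF k (t - b)
  have a3 := G.le_opNorm (t - b)
  have a4 := norm_nonneg (t - b)
  nlinarith

end

section

variable {A E T : Type} [CStarAlgebra A] [CStarAlgebra E] [CStarAlgebra T]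
  {φ : A →ₗ[ℂ] ℂ} {τ : E →ₗ[ℂ] ℂ} {ω : T →ₗ[ℂ] ℂ} {α : A →⋆ₐ[ℂ] T} {β : E →⋆ₐ[ℂ] T}
  {u : G2 →* A} {s : A}

theorem TP.pi (h : TP φ τ ω α β) (k : KD φ u s) (hE : AllF E) : PI T := by
  obtain ⟨Lφ, hL⟩ := h.symm.slice h.sφ.clm
  have hL' : ∀ a e, Lφ (α a * β e) = φ a • e := fun a e => by rw [(h.comm a e).eq, hL]; rfl
  have hω : ∀ t, ω t = τ (Lφ t) := by
    refine h.dn.ext h.sω.clm (h.sτ.clm.comp Lφ) ?_
    rintro ⟨a, e⟩
    simp [hL', h.prod]
  have hv : ∀ i, star (α (vv u s i)) * α (vv u s i) = 1 := fun i => by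
    rw [← map_star, ← map_mul, k.vv_orth]; simp
  let βL : E →L[ℂ] T := ⟨β.toAlgHom.toLinearMap, hom_cont β⟩
  have hlim := (h.dn_left k.dn).tendsto
    (fun i => ContinuousLinearMap.mulLeftRight ℂ T (star (α (vv u s i))) (α (vv u s i)))
    (βL.comp Lφ) (fun i t => by
      rw [ContinuousLinearMap.mulLeftRight_apply]
      have h1 := norm_isom (hv i)
      calc _ ≤ ‖star (α (vv u s i))‖ * ‖t‖ * ‖α (vv u s i)‖ := norm_mul₃_le
        _ ≤ 1 * ‖t‖ * 1 := by rw [norm_star]; gcongr
        _ = ‖t‖ := by ring) (by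
      rintro ⟨⟨p, q⟩, e⟩
      filter_upwards [k.excise p q] with i hi
      rw [ContinuousLinearMap.mulLeftRight_apply, ContinuousLinearMap.comp_apply, hL', mul_assoc,
        mul_assoc, ← (h.comm _ _).eq, ← mul_assoc, ← mul_assoc, ← map_star, ← map_mul, ← map_mul,
        hi]
      simp only [map_smul, map_one, smul_mul_assoc, one_mul]
      rfl)
  intro z hz
  obtain ⟨x, y, hxy⟩ : ∃ x y, ω (x * z * y) ≠ 0 := by
    by_contra hc
    push Not at hc
    exact hz (h.fω z hc)
  have hc : Lφ (x * z * y) ≠ 0 := fun e => hxy (by rw [hω, e, map_zero])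
  obtain ⟨n, p, q, hpq⟩ := hE.ideal hc
  have h1 : (∑ i : Fin n, α (star (vv u s i)) * β (p i)) * β (Lφ (x * z * y)) *
      (∑ i : Fin n, α (vv u s i) * β (q i)) = 1 := by
    rw [Finset.sum_mul, Finset.sum_mul, ← map_one β, ← hpq, map_sum]
    refine Finset.sum_congr rfl fun i _ => ?_
    rw [mul_assoc (α _), ← map_mul, Finset.mul_sum, Finset.sum_eq_single i]
    · rw [h.mul, k.vv_orth]; simp
    · intro j _ hj
      rw [h.mul, k.vv_orth, if_neg (fun e => hj (Fin.ext e).symm)]; simp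
    · simp
  have h2 := ((hlim (x * z * y)).const_mul (∑ i : Fin n, α (star (vv u s i)) * β (p i))).mul_const
    (∑ i : Fin n, α (vv u s i) * β (q i))
  have h3 : (βL.comp Lφ) (x * z * y) = β (Lφ (x * z * y)) := rfl
  rw [h3, h1] at h2
  obtain ⟨i, hi⟩ := (Metric.tendsto_nhds.mp h2 1 one_pos).exists
  rw [dist_comm, dist_eq_norm] at hi
  obtain ⟨w, hw⟩ := isUnit_of_near hi
  rw [ContinuousLinearMap.mulLeftRight_apply] at hw
  refine ⟨↑w⁻¹ * ((∑ i : Fin n, α (star (vv u s i)) * β (p i)) * star (α (vv u s i)) * x),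
    y * α (vv u s i) * (∑ i : Fin n, α (vv u s i) * β (q i)), ?_⟩
  rw [← w.inv_mul, hw]
  simp only [mul_assoc]

theorem TP.gap (h : TP φ τ ω α β) (k : KD φ u s) (Lφ : T →L[ℂ] E)
    (hL : ∀ a e, Lφ (α a * β e) = φ a • e) (t : T) :
    nn ω (t - β (Lφ t)) ^ 2 ≤ 60 * ∑ i, nn ω (α (u (gen i)) * t * α (u (gen i)⁻¹) - t) ^ 2 := by
  have hc := h.sω.cont_nn
  have hβ := hom_cont β
  refine h.dn.denseRange.induction_on t (isClosed_le (by fun_prop) (by fun_prop)) (fun c => ?_)
  let cm : G2 → A →ₗ[ℂ] A := fun g =>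
    LinearMap.mulRight ℂ (u g⁻¹) ∘ₗ LinearMap.mulLeft ℂ (u g) - LinearMap.id
  let pr : A →ₗ[ℂ] A := LinearMap.id - φ.smulRight 1
  have hcm : ∀ g a, cm g a = u g * a * u g⁻¹ - a := fun g a => rfl
  have hpr : ∀ a, pr a = a - φ a • 1 := fun a => rfl
  let Q : A → A →ₗ[ℂ] ℂ := fun v =>
    (60 : ℂ) • ∑ i, form φ (cm (gen i) v) ∘ₗ cm (gen i) - form φ (pr v) ∘ₗ pr
  have hQ : ∀ v w, Q v w = 60 * ∑ i, φ (star (cm (gen i) v) * cm (gen i) w) -
      φ (star (pr v) * pr w) := fun v w => by
    simp [Q, LinearMap.sum_apply]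
  have h1 := hadamard_sum (psd_of_form Q (fun v => by
      rw [hQ]
      simp only [h.sφ.nn_sq', hcm, hpr]
      have := k.gap v
      exact_mod_cast sub_nonneg.mpr this) (fun v w => by
      rw [hQ, hQ, map_sub, map_mul (starRingEnd ℂ), map_sum, ← h.sφ.form_symm]
      simp only [← h.sφ.form_symm]
      congr 2
      exact (map_ofNat (starRingEnd ℂ) 60).symm) (fun p : A × E => p.1))
    (h.sτ.psd (fun p : A × E => p.2)) c
  have h2 : ∀ F : A →ₗ[ℂ] A, ((nn ω (Finsupp.linearCombination ℂ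
      (fun p : A × E => α (F p.1) * β p.2) c) ^ 2 : ℝ) : ℂ) = ∑ i ∈ c.support, ∑ j ∈ c.support,
      conj (c i) * (φ (star (F i.1) * F j.1) * τ (star i.2 * j.2)) * c j := by
    intro F
    rw [← h.sω.nn_sq', form_lc]
    simp only [h.star_eq, h.mul, h.prod]
  have h3 : Finsupp.linearCombination ℂ (fun p : A × E => α p.1 * β p.2) c -
      β (Lφ (Finsupp.linearCombination ℂ (fun p : A × E => α p.1 * β p.2) c)) =
      Finsupp.linearCombination ℂ (fun p : A × E => α (pr p.1) * β p.2) c := by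
    simp [Finsupp.linearCombination_apply, Finsupp.sum, hL, hpr, sub_mul, smul_sub]
  have h4 : ∀ g, α (u g) * Finsupp.linearCombination ℂ (fun p : A × E => α p.1 * β p.2) c *
      α (u g⁻¹) - Finsupp.linearCombination ℂ (fun p : A × E => α p.1 * β p.2) c =
      Finsupp.linearCombination ℂ (fun p : A × E => α (cm g p.1) * β p.2) c := by
    intro g
    simp only [Finsupp.linearCombination_apply, Finsupp.sum, hcm, Finset.mul_sum, Finset.sum_mul,
      ← Finset.sum_sub_distrib, map_sub, map_mul, sub_mul, smul_sub, mul_smul_comm, smul_mul_assoc,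
      mul_assoc, ← (h.comm _ _).eq]
  rw [h3]
  simp only [h4]
  rw [← sub_nonneg, ← Complex.zero_le_real]
  refine h1.trans_eq ?_
  rw [Complex.ofReal_sub, Complex.ofReal_mul, Complex.ofReal_sum]
  simp only [h2, Matrix.of_apply, hQ]
  rw [Finset.sum_comm (s := Finset.univ), Finset.mul_sum, ← Finset.sum_sub_distrib]
  refine Finset.sum_congr rfl fun i _ => ?_
  rw [Finset.sum_comm (s := Finset.univ), Finset.mul_sum, ← Finset.sum_sub_distrib]
  refine Finset.sum_congr rfl fun j _ => ?_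
  simp only [Fin.sum_univ_three]
  push_cast
  ring

theorem TP.no_pair (h : TP φ τ ω α β) (k : KD φ u s) (htr : ∀ x y, τ (x * y) = τ (y * x))
    (x y : T) (hx : star x * x = 1) (hy : star y * y = 1) (hxy : star x * y = 0)
    (cx : ∀ i, ‖x * α (u (gen i)) - α (u (gen i)) * x‖ ≤ 1 / 140)
    (cy : ∀ i, ‖y * α (u (gen i)) - α (u (gen i)) * y‖ ≤ 1 / 140) : False := by
  obtain ⟨Lφ, hL⟩ := h.symm.slice h.sφ.clm
  have hL' : ∀ a e, Lφ (α a * β e) = φ a • e := fun a e => by rw [(h.comm a e).eq, hL]; rfl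
  have hst : ∀ t, Lφ (star t) = star (Lφ t) := by
    intro t
    refine h.dn.ind (fun t => Lφ (star t) = star (Lφ t)) (isClosed_eq (by fun_prop) (by fun_prop))
      (by simp) (fun p => ?_) ?_ ?_ t
    · rw [h.star_eq, hL', hL', h.sφ.star_eq]; simp
    · intro a b ha hb; simp [ha, hb]
    · intro c a ha; simp [ha]
  have hβ : ∀ e, nn ω (β e) = nn τ e := fun e => by
    simpa [h.sφ.nn_one] using h.nn_mul 1 e
  have hU : ∀ g, star (α (u g)) = α (u g⁻¹) := fun g => by rw [← map_star, k.ustar]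
  have hU1 : ∀ g, α (u g) * α (u g⁻¹) = 1 := fun g => by rw [← map_mul, ← map_mul]; simp
  have hn : ∀ g, ‖α (u g)‖ ≤ 1 := fun g => norm_isom (by simpa [hU] using hU1 g⁻¹)
  have hg : ∀ t : T, (∀ i, ‖α (u (gen i)) * t * α (u (gen i)⁻¹) - t‖ ≤ 1 / 140) →
      nn ω (t - β (Lφ t)) ≤ 1 / 10 := by
    intro t ht
    have h1 := h.gap k Lφ hL' t
    have h2 : ∀ i, nn ω (α (u (gen i)) * t * α (u (gen i)⁻¹) - t) ^ 2 ≤ (1 / 140) ^ 2 := fun i =>
      pow_le_pow_left₀ (nn_nonneg _) ((h.sω.nn_le _).trans (ht i)) 2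
    rw [Fin.sum_univ_three] at h1
    have := nn_nonneg (φ := ω) (t - β (Lφ t))
    nlinarith [h2 0, h2 1, h2 2]
  have key : ∀ x : T, star x * x = 1 →
      (∀ i, ‖x * α (u (gen i)) - α (u (gen i)) * x‖ ≤ 1 / 140) → 4 / 5 ≤ nn ω (star x) := by
    intro x hx cx
    have h1 : ∀ i, ‖α (u (gen i)) * x * α (u (gen i)⁻¹) - x‖ ≤ 1 / 140 := by
      intro i
      have : α (u (gen i)) * x * α (u (gen i)⁻¹) - x =
          -((x * α (u (gen i)) - α (u (gen i)) * x) * α (u (gen i)⁻¹)) := by
        rw [sub_mul, mul_assoc x, hU1]; simp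
      rw [this, norm_neg]
      exact (norm_mul_le _ _).trans ((mul_le_of_le_one_right (norm_nonneg _) (hn _)).trans (cx i))
    have h2 := hg x h1
    have h3 := hg (star x) fun i => by
      rw [← norm_star]
      simpa [hU, mul_assoc] using h1 i
    have h4 : nn ω x = 1 := by simp [nn, hx, h.sω.one]
    have h5 := h.sω.nn_add (x - β (Lφ x)) (β (Lφ x))
    have h6 := h.sω.nn_add (star x) (-(star x - β (Lφ (star x))))
    rw [h.sω.nn_neg] at h6
    simp only [sub_add_cancel, neg_sub, add_sub_cancel, hβ] at h5 h6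
    have h7 : nn τ (Lφ (star x)) = nn τ (Lφ x) := by
      rw [hst]; unfold nn; rw [star_star, htr]
    linarith
  have h1 := key x hx cx
  have h2 := key y hy cy
  have hyx : star y * x = 0 := by simpa using congrArg star hxy
  have h3 := (h.sω.pos (1 - x * star x - y * star y)).1
  have e : star (1 - x * star x - y * star y) * (1 - x * star x - y * star y) =
      1 - x * star x - y * star y := by
    simp only [star_sub, star_one, star_mul, star_star, mul_sub, sub_mul, one_mul, mul_one,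
      mul_assoc]
    simp only [← mul_assoc (star x), ← mul_assoc (star y), hx, hy, hxy, hyx]
    simp
  have h4 := h.sω.nn_sq (star x)
  have h5 := h.sω.nn_sq (star y)
  rw [star_star] at h4 h5
  rw [e, map_sub, map_sub, h.sω.one] at h3
  simp only [Complex.zero_re, Complex.sub_re, Complex.one_re] at h3
  nlinarith

end

/-- approximately central pairs in a tensor product with the Cuntz algebra -/
theorem exists_pair {B O : Type} [CStarAlgebra B] [CStarAlgebra O] (hO : Defs.IsCuntzInfty O)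
    (hB : Defs.IsStable B O) : ∃ x y : ℕ → B, (∀ n, star (x n) * x n = 1) ∧
      (∀ n, star (y n) * y n = 1) ∧ (∀ n, star (x n) * y n = 0) ∧ ∀ t,
      Tendsto (fun n => x n * t - t * x n) atTop (𝓝 0) ∧
      Tendsto (fun n => y n * t - t * y n) atTop (𝓝 0) := by
  obtain ⟨-, s, hs1, hs2, hg⟩ := hO
  have hs : ∀ i j, star (s i) * s j = if i = j then 1 else 0 := fun i j => by
    split_ifs with e
    · rw [e, hs1]
    · exact hs2 i j e
  obtain ⟨T, _, θ0, -, hd, ⟨e⟩⟩ := hB
  let θ : B ⊗[ℂ] O →⋆ₐ[ℂ] B := (e : T →⋆ₐ[ℂ] B).comp θ0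
  have hd' : DenseRange θ :=
    (e.surjective.denseRange).comp hd (hom_cont (e : T →⋆ₐ[ℂ] B))
  let j : O →⋆ₐ[ℂ] B :=
    { θ.toAlgHom.comp Algebra.TensorProduct.includeRight with
      map_star' := fun o => by
        show θ (1 ⊗ₜ star o) = star (θ (1 ⊗ₜ o))
        rw [← map_star]; simp }
  have hj : ∀ o, j o = θ (1 ⊗ₜ o) := fun o => rfl
  have hcj := hom_cont j
  have key : ∀ i t, Tendsto (fun n => j (xx s n i) * t - t * j (xx s n i)) atTop (𝓝 0) := by
    intro i t
    have hn : ∀ n, ‖j (xx s n i)‖ ≤ 1 := fun n =>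
      norm_isom (by rw [← map_star, ← map_mul, xx_isom hs, map_one])
    have h1 : ∀ z, Tendsto (fun n => j (xx s n i) * θ z - θ z * j (xx s n i)) atTop (𝓝 0) := by
      intro z
      induction z using TensorProduct.induction_on with
      | zero => simp
      | tmul b o =>
        have := ((hcj.tendsto 0).comp (xx_central hs hg i o)).const_mul (θ (b ⊗ₜ 1))
        rw [map_zero, mul_zero] at this
        refine this.congr fun n => ?_
        simp only [Function.comp, hj, ← map_mul, ← map_sub, Algebra.TensorProduct.tmul_mul_tmul,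
          one_mul, mul_one, TensorProduct.tmul_sub, mul_sub]
      | add a b ha hb =>
        have := ha.add hb
        rw [add_zero] at this
        exact this.congr fun n => by rw [map_add]; noncomm_ring
    rw [NormedAddGroup.tendsto_nhds_zero]
    intro ε hε
    obtain ⟨z, hz⟩ := hd'.exists_dist_lt t (show 0 < ε / 3 by positivity)
    rw [dist_eq_norm] at hz
    filter_upwards [NormedAddGroup.tendsto_nhds_zero.mp (h1 z) (ε / 3) (by positivity)] with n h
    have hn' := hn n
    generalize j (xx s n i) = x at h hn' ⊢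
    have e : x * t - t * x = (x * θ z - θ z * x) + x * (t - θ z) - (t - θ z) * x := by
      noncomm_ring
    rw [e]
    have a1 := (norm_mul_le x (t - θ z)).trans (mul_le_of_le_one_left (norm_nonneg _) hn')
    have a2 := (norm_mul_le (t - θ z) x).trans (mul_le_of_le_one_right (norm_nonneg _) hn')
    have a3 := norm_sub_le ((x * θ z - θ z * x) + x * (t - θ z)) ((t - θ z) * x)
    have a4 := norm_add_le (x * θ z - θ z * x) (x * (t - θ z))
    linarith
  exact ⟨fun n => j (xx s n 0), fun n => j (xx s n 2),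
    fun n => by rw [← map_star, ← map_mul, xx_isom hs, map_one],
    fun n => by rw [← map_star, ← map_mul, xx_isom hs, map_one],
    fun n => by rw [← map_star, ← map_mul, xx_orth hs, map_zero], fun t => ⟨key 0 t, key 2 t⟩⟩

lemma PP_countable : Countable PP := by
  let f : PP → List G2 := fun p => PP.rec (fun g => [g]) (fun g _ l => g :: l) p
  have hne : ∀ p, f p ≠ [] := fun p => by cases p <;> simp [f]
  have hf : Function.Injective f := by
    intro p
    induction p with
    | base g =>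
      intro q e
      cases q with
      | base k => simpa [f] using e
      | cons k q => exact absurd (List.cons.inj e).2.symm (hne q)
    | cons g p ih =>
      intro q e
      cases q with
      | base k => exact absurd (List.cons.inj e).2 (hne p)
      | cons k q => rw [(List.cons.inj e).1, ih (List.cons.inj e).2]
  haveI : Countable G2 := FreeGroup.toWord_injective.countable
  exact hf.countable

theorem main (D : Type) [CStarAlgebra D] (hD : Defs.IsSimple D) (τ : D →ₗ[ℂ] ℂ)
    (hτ : Defs.IsTracialState τ) :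
    ∃ (B : Type) (_ : CStarAlgebra B), Defs.IsSimple B ∧ Defs.IsPurelyInfinite B ∧
      (TopologicalSpace.SeparableSpace D → TopologicalSpace.SeparableSpace B) ∧
      Defs.IsStable B D ∧
      ∀ (O : Type) [CStarAlgebra O], Defs.IsCuntzInfty O → ¬ Defs.IsStable B O := by
  obtain ⟨E, _, ρ, σ, γ, htr, ⟨hE, hsep⟩, hT⟩ :=
    exists_E (⟨hτ.1, hτ.2.1⟩ : IsState τ) hτ.2.2 (allF_of_simple hD)
  obtain ⟨A, _, φ, u, s, k⟩ := exists_KD
  obtain ⟨B, _, ω, α, β, h⟩ := exists_TP k.st hT.sω k.fa hT.fω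
  obtain ⟨σ', h'⟩ := h.assoc hT
  haveI : Nontrivial B := ⟨⟨1, 0, fun e => by simpa [e] using h.sω.one⟩⟩
  have hpi := h.pi k hE
  refine ⟨B, inferInstance, hpi.simple, hpi.purelyInfinite (v := α (vv u s 0)) ?_ ?_, fun e => ?_,
    ⟨B, inferInstance, { h'.th with map_star' := fun z => ?_ }, h'.inj, h'.dense_th,
      ⟨StarAlgEquiv.refl ℂ B⟩⟩, fun O _ hO hB => ?_⟩
  · rw [← map_star, ← map_mul, k.vv_orth]; simp
  · intro e
    have h1 : star (α (vv u s 1)) * α (vv u s 0) = 0 := by
      rw [← map_star, ← map_mul, k.vv_orth]; simp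
    have h2 : star (α (vv u s 1)) * α (vv u s 1) = 1 := by
      rw [← map_star, ← map_mul, k.vv_orth]; simp
    have h3 := congrArg (fun x => star (α (vv u s 1)) * x * α (vv u s 1)) e
    simp only [← mul_assoc, h1, zero_mul, mul_one, h2] at h3
    exact zero_ne_one h3
  · haveI : Countable PP := PP_countable
    exact h.sep (k.dn.sep (Set.countable_range _).isSeparable) (hsep e)
  · show h'.th (star z) = star (h'.th z)
    induction z using TensorProduct.induction_on with
    | zero => simp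
    | tmul a d => rw [TensorProduct.star_tmul, h'.th_tmul, h'.th_tmul, h'.star_eq]
    | add a b ha hb => simp only [star_add, map_add, ha, hb]
  · obtain ⟨x, y, hx, hy, hxy, hc⟩ := exists_pair hO hB
    have h1 : ∀ᶠ n in atTop, ∀ i, ‖x n * α (u (gen i)) - α (u (gen i)) * x n‖ < 1 / 140 ∧
        ‖y n * α (u (gen i)) - α (u (gen i)) * y n‖ < 1 / 140 :=
      eventually_all.mpr fun i =>
        (NormedAddGroup.tendsto_nhds_zero.mp (hc _).1 _ (by norm_num)).and
        (NormedAddGroup.tendsto_nhds_zero.mp (hc _).2 _ (by norm_num))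
    obtain ⟨n, hn⟩ := h1.exists
    exact h.no_pair k htr (x n) (y n) (hx n) (hy n) (hxy n) (fun i => (hn i).1.le)
      (fun i => (hn i).2.le)

end Pool.Agent.H846Z.ZO
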