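import Pool.Agent.H846Z.ZO.Machine

/-! Spatial tensor products, slice maps, simplicity. -/

set_option autoImplicit false
set_option linter.style.haveILetI false

open scoped ComplexOrder ComplexConjugate InnerProductSpace TensorProduct

noncomputable section

namespace Pool.Agent.H846Z.ZO

/-- spatial tensor product with product state -/
structure TP {A D T : Type} [CStarAlgebra A] [CStarAlgebra D] [CStarAlgebra T]
    (φ : A →ₗ[ℂ] ℂ) (τ : D →ₗ[ℂ] ℂ) (ω : T →ₗ[ℂ] ℂ) (α : A →⋆ₐ[ℂ] T) (β : D →⋆ₐ[ℂ] T) :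
    Prop where
  sφ : IsState φ
  sτ : IsState τ
  sω : IsState ω
  fφ : Faith φ
  fτ : Faith τ
  fω : Faith ω
  comm : ∀ a d, Commute (α a) (β d)
  dn : Dn (fun p : A × D => α p.1 * β p.2)
  prod : ∀ a d, ω (α a * β d) = φ a * τ d

section

variable {A D T : Type} [CStarAlgebra A] [CStarAlgebra D] [CStarAlgebra T]
  {φ : A →ₗ[ℂ] ℂ} {τ : D →ₗ[ℂ] ℂ} {ω : T →ₗ[ℂ] ℂ} {α : A →⋆ₐ[ℂ] T} {β : D →⋆ₐ[ℂ] T}

lemma TP.symm (h : TP φ τ ω α β) : TP τ φ ω β α where
  sφ := h.sτ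
  sτ := h.sφ
  sω := h.sω
  fφ := h.fτ
  fτ := h.fφ
  fω := h.fω
  comm d a := (h.comm a d).symm
  dn := h.dn.of_span fun p => subset_closure
    (Submodule.subset_span ⟨(p.2, p.1), (h.comm p.1 p.2).symm.eq⟩)
  prod d a := by rw [← (h.comm a d).eq, h.prod, mul_comm]

lemma TP.mul (h : TP φ τ ω α β) (a a' : A) (d d' : D) :
    α a * β d * (α a' * β d') = α (a * a') * β (d * d') := by
  rw [map_mul, map_mul, mul_assoc, mul_assoc, ← mul_assoc (β d), ← (h.comm a' d).eq, mul_assoc]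

lemma TP.star_eq (h : TP φ τ ω α β) (a : A) (d : D) :
    star (α a * β d) = α (star a) * β (star d) := by
  rw [star_mul, ← map_star, ← map_star, (h.comm _ _).eq]

/-- the map from the algebraic tensor product -/
def TP.th (h : TP φ τ ω α β) : A ⊗[ℂ] D →ₐ[ℂ] T :=
  Algebra.TensorProduct.lift α.toAlgHom β.toAlgHom h.comm

@[simp] lemma TP.th_tmul (h : TP φ τ ω α β) (a : A) (d : D) : h.th (a ⊗ₜ d) = α a * β d := rfl

lemma TP.dense_th (h : TP φ τ ω α β) : DenseRange h.th := by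
  refine h.dn.mono ?_
  intro t ht
  induction ht using Submodule.span_induction with
  | mem x hx => obtain ⟨p, rfl⟩ := hx; exact ⟨p.1 ⊗ₜ p.2, rfl⟩
  | zero => exact ⟨0, map_zero _⟩
  | add x y _ _ hx hy =>
    obtain ⟨x, rfl⟩ := hx; obtain ⟨y, rfl⟩ := hy; exact ⟨x + y, map_add _ _ _⟩
  | smul c x _ hx => obtain ⟨x, rfl⟩ := hx; exact ⟨c • x, map_smul _ _ _⟩

lemma TP.nn_mul (h : TP φ τ ω α β) (a : A) (d : D) : nn ω (α a * β d) = nn φ a * nn τ d := by
  have h1 : nn ω (α a * β d) ^ 2 = (nn φ a * nn τ d) ^ 2 := by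
    rw [h.sω.nn_sq, h.star_eq, h.mul, h.prod, h.sφ.nn_sq', h.sτ.nn_sq', ← Complex.ofReal_mul,
      Complex.ofReal_re, mul_pow]
  exact (pow_left_inj₀ (nn_nonneg _) (mul_nonneg (nn_nonneg _) (nn_nonneg _)) two_ne_zero).mp h1

/-- algebraic slice maps -/
def R0 (ψ : D →ₗ[ℂ] ℂ) : A ⊗[ℂ] D →ₗ[ℂ] A :=
  (TensorProduct.rid ℂ A).toLinearMap ∘ₗ LinearMap.lTensor A ψ

/-- algebraic slice maps -/
def L0 (χ : A →ₗ[ℂ] ℂ) : A ⊗[ℂ] D →ₗ[ℂ] D :=
  (TensorProduct.lid ℂ D).toLinearMap ∘ₗ LinearMap.rTensor D χ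

@[simp] lemma R0_tmul (ψ : D →ₗ[ℂ] ℂ) (a : A) (d : D) : R0 ψ (a ⊗ₜ[ℂ] d) = ψ d • a := by simp [R0]

@[simp] lemma L0_tmul (χ : A →ₗ[ℂ] ℂ) (a : A) (d : D) : L0 χ (a ⊗ₜ[ℂ] d) = χ a • d := by simp [L0]

lemma R0_L0 (ψ : D →ₗ[ℂ] ℂ) (χ : A →ₗ[ℂ] ℂ) (z : A ⊗[ℂ] D) : χ (R0 ψ z) = ψ (L0 χ z) := by
  induction z using TensorProduct.induction_on with
  | zero => simp
  | tmul a d => simp [mul_comm]
  | add x y hx hy => simp [hx, hy]

/-- two sided translate of a functional -/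
def tw (φ : A →ₗ[ℂ] ℂ) (y x : A) : A →ₗ[ℂ] ℂ :=
  φ ∘ₗ LinearMap.mulRight ℂ x ∘ₗ LinearMap.mulLeft ℂ y

@[simp] lemma tw_apply (φ : A →ₗ[ℂ] ℂ) (y x a : A) : tw φ y x a = φ (y * a * x) := rfl

/-- two sided translate of a state -/
def IsState.twL (h : IsState φ) (y x : A) : A →L[ℂ] ℂ :=
  ⟨tw φ y x, by have := h.cont; show Continuous fun a => φ (y * a * x); fun_prop⟩

@[simp] lemma IsState.twL_apply (h : IsState φ) (y x a : A) : h.twL y x a = φ (y * a * x) := rfl

lemma TP.norm_L0 (h : TP φ τ ω α β) (x y : A) (z : A ⊗[ℂ] D) :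
    ‖L0 (tw φ (Star.star y) x) z‖ ≤ ‖h.th z‖ * nn φ x * nn φ y := by
  refine h.sτ.norm_le_of' h.fτ _ _
    (mul_nonneg (mul_nonneg (norm_nonneg _) (nn_nonneg _)) (nn_nonneg _)) (fun u v => ?_)
  have h1 : τ (Star.star v * L0 (tw φ (Star.star y) x) z * u) =
      ω (Star.star (α y * β v) * h.th z * (α x * β u)) := by
    induction z using TensorProduct.induction_on with
    | zero => simp
    | tmul a d => rw [h.star_eq, h.th_tmul, h.mul, h.mul, h.prod]; simp
    | add x y hx hy => simp only [map_add, mul_add, add_mul, hx, hy]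
  rw [h1]
  refine (h.sω.bound _ _ _).trans (le_of_eq ?_)
  rw [h.nn_mul, h.nn_mul]; ring

lemma TP.norm_R0 (h : TP φ τ ω α β) (ψ : D →L[ℂ] ℂ) (z : A ⊗[ℂ] D) :
    ‖R0 ψ.toLinearMap z‖ ≤ ‖ψ‖ * ‖h.th z‖ := by
  refine h.sφ.norm_le_of' h.fφ _ _ (by positivity) (fun x y => ?_)
  have h1 := R0_L0 ψ.toLinearMap (tw φ (Star.star y) x) z
  rw [tw_apply] at h1
  rw [h1]
  refine (ψ.le_opNorm _).trans ?_
  rw [mul_assoc, mul_assoc, ← mul_assoc ‖h.th z‖]
  exact mul_le_mul_of_nonneg_left (h.norm_L0 x y z) (norm_nonneg _)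

/-- slice maps -/
lemma TP.slice (h : TP φ τ ω α β) (ψ : D →L[ℂ] ℂ) :
    ∃ R : T →L[ℂ] A, ∀ a d, R (α a * β d) = ψ d • a := by
  refine ⟨(R0 ψ.toLinearMap).extendOfNorm h.th.toLinearMap, fun a d => ?_⟩
  have := LinearMap.extendOfNorm_eq (f := R0 ψ.toLinearMap) (e := h.th.toLinearMap) h.dense_th
    ⟨‖ψ‖, h.norm_R0 ψ⟩ (a ⊗ₜ d)
  simpa using this

lemma eq_zero_of_L0 (z : A ⊗[ℂ] D) (hz : ∀ χ : A →ₗ[ℂ] ℂ, L0 χ z = 0) : z = 0 := by
  classical
  let b := Module.Basis.ofVectorSpace ℂ A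
  have h1 : ∀ (z : A ⊗[ℂ] D) i, TensorProduct.equivFinsuppOfBasisLeft b z i = L0 (b.coord i) z := by
    intro z i
    induction z using TensorProduct.induction_on with
    | zero => simp
    | tmul a d => simp
    | add x y hx hy => simp [hx, hy]
  apply (TensorProduct.equivFinsuppOfBasisLeft (N := D) b).injective
  ext i
  rw [h1, hz]; simp

lemma TP.inj (h : TP φ τ ω α β) : Function.Injective h.th := by
  rw [injective_iff_map_eq_zero]
  intro z hz
  apply eq_zero_of_L0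
  intro χ
  apply SeparatingDual.eq_zero_of_forall_dual_eq_zero (R := ℂ)
  intro ψ
  have h1 := h.norm_R0 ψ z
  rw [hz, norm_zero, mul_zero, norm_le_zero_iff] at h1
  have := R0_L0 ψ.toLinearMap χ z
  rw [h1, map_zero] at this
  exact this.symm

end

/-- every state has a faithful GNS representation -/
def AllF (A : Type) [CStarAlgebra A] : Prop := ∀ ψ : A →ₗ[ℂ] ℂ, IsState ψ → Faith ψ

/-- existence of a product state that kills an ideal -/
lemma exists_product {A D T : Type} [CStarAlgebra A] [CStarAlgebra D] [CStarAlgebra T]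
    (α : A →⋆ₐ[ℂ] T) (β : D →⋆ₐ[ℂ] T) (hc : ∀ a d, Commute (α a) (β d)) (I : Set T)
    (hI : ∀ t ∈ I, ∀ x y, x * t * y ∈ I) (ψ0 : T →ₗ[ℂ] ℂ) (h0 : IsState ψ0)
    (h0I : ∀ t ∈ I, ψ0 t = 0) :
    ∃ ρ : T →ₗ[ℂ] ℂ, IsState ρ ∧ (∀ t ∈ I, ρ t = 0) ∧
      ∀ a d, ρ (α a * β d) = ρ (α a) * ρ (β d) := by
  let S : Set (T → ℂ) := {f | (∀ x y, f (x + y) = f x + f y) ∧ (∀ (c : ℂ) x, f (c • x) = c * f x) ∧
    f 1 = 1 ∧ (∀ x, 0 ≤ f (star x * x)) ∧ ∀ t ∈ I, f t = 0}
  have hS : ∀ f ∈ S, ∃ ρ : T →ₗ[ℂ] ℂ, IsState ρ ∧ (∀ t ∈ I, ρ t = 0) ∧ (ρ : T → ℂ) = f := by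
    rintro f ⟨h1, h2, h3, h4, h5⟩
    exact ⟨⟨⟨f, h1⟩, h2⟩, ⟨h3, h4⟩, h5, rfl⟩
  have hS' : ∀ ρ : T →ₗ[ℂ] ℂ, IsState ρ → (∀ t ∈ I, ρ t = 0) → (ρ : T → ℂ) ∈ S :=
    fun ρ h1 h2 => ⟨ρ.map_add, fun c x => ρ.map_smul c x, h1.one, h1.pos, h2⟩
  have hcl : IsClosed S := by
    simp only [S, Set.ofPred_and, Set.ofPred_forall]
    refine IsClosed.inter ?_ (IsClosed.inter ?_ (IsClosed.inter ?_ (IsClosed.inter ?_ ?_)))
    · exact isClosed_iInter fun x => isClosed_iInter fun y =>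
        isClosed_eq (by fun_prop) (by fun_prop)
    · exact isClosed_iInter fun x => isClosed_iInter fun y =>
        isClosed_eq (by fun_prop) (by fun_prop)
    · exact isClosed_eq (by fun_prop) (by fun_prop)
    · exact isClosed_iInter fun x => isClosed_le (by fun_prop) (by fun_prop)
    · exact isClosed_iInter fun x => isClosed_iInter fun y =>
        isClosed_eq (by fun_prop) (by fun_prop)
  have hcomp : IsCompact S := by
    refine (isCompact_univ_pi fun t : T => isCompact_closedBall (0 : ℂ) ‖t‖).of_isClosed_subset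
      hcl ?_
    intro f hf t _
    obtain ⟨ρ, h1, -, rfl⟩ := hS f hf
    simpa using h1.norm_le t
  let r : (T → ℂ) → (D → ℂ) := fun f d => f (β d)
  have hr : Continuous r := by fun_prop
  obtain ⟨ψ, hψ⟩ := (hcomp.image hr).extremePoints_nonempty ⟨_, _, hS' ψ0 h0 h0I, rfl⟩
  obtain ⟨f, hf, hfψ⟩ := hψ.1
  obtain ⟨ρ, hρ, hρI, rfl⟩ := hS f hf
  refine ⟨ρ, hρ, hρI, ?_⟩
  -- the basic splitting
  have split : ∀ b c : A, star b * b + star c * c = 1 → ρ (α (star b * b)) ≠ 0 →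
      ρ (α (star c * c)) ≠ 0 →
      ∀ d, ρ (α (star b * b) * β d) = ρ (α (star b * b)) * ρ (β d) := by
    intro b c hbc hb hc' d
    have st : ∀ b : A, ρ (α (star b * b)) ≠ 0 →
        (((ρ (α (star b * b)))⁻¹ • tw ρ (star (α b)) (α b) : T →ₗ[ℂ] ℂ) : T → ℂ) ∈ S := by
      intro b hb
      have hp : 0 ≤ ρ (α (star b * b)) := by rw [map_mul, map_star]; exact hρ.pos _
      refine hS' _ ⟨?_, fun x => ?_⟩ fun t ht => ?_
      · simp only [LinearMap.smul_apply, tw_apply, mul_one, smul_eq_mul]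
        rw [← map_star, ← map_mul, inv_mul_cancel₀ hb]
      · simp only [LinearMap.smul_apply, tw_apply, smul_eq_mul]
        refine mul_nonneg (inv_nonneg.mpr hp) ?_
        have := hρ.pos (x * α b)
        simpa [mul_assoc] using this
      · simp only [LinearMap.smul_apply, tw_apply, smul_eq_mul]
        rw [hρI _ (hI t ht _ _), mul_zero]
    have ev : ∀ (b : A) (d : D), star (α b) * β d * α b = α (star b * b) * β d := by
      intro b d
      rw [mul_assoc, ← (hc b d).eq, ← mul_assoc, map_mul, map_star]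
    have hpb : 0 ≤ ρ (α (star b * b)) := by rw [map_mul, map_star]; exact hρ.pos _
    have hpc : 0 ≤ ρ (α (star c * c)) := by rw [map_mul, map_star]; exact hρ.pos _
    obtain ⟨s, hs⟩ : ∃ s : ℝ, ρ (α (star b * b)) = s :=
      ⟨_, Complex.ext rfl (by simpa using hpb.2.symm)⟩
    obtain ⟨t, ht⟩ : ∃ t : ℝ, ρ (α (star c * c)) = t :=
      ⟨_, Complex.ext rfl (by simpa using hpc.2.symm)⟩
    have hs0 : 0 < s := by
      rw [hs] at hpb hb
      exact lt_of_le_of_ne (by exact_mod_cast hpb) (fun h => hb (by rw [← h]; simp))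
    have ht0 : 0 < t := by
      rw [ht] at hpc hc'
      exact lt_of_le_of_ne (by exact_mod_cast hpc) (fun h => hc' (by rw [← h]; simp))
    have hst : s + t = 1 := by
      have : (s : ℂ) + t = 1 := by rw [← hs, ← ht, ← map_add, ← map_add, hbc, map_one, hρ.one]
      exact_mod_cast this
    have hseg : ψ ∈ openSegment ℝ
        (r (((ρ (α (star b * b)))⁻¹ • tw ρ (star (α b)) (α b) : T →ₗ[ℂ] ℂ) : T → ℂ))
        (r (((ρ (α (star c * c)))⁻¹ • tw ρ (star (α c)) (α c) : T →ₗ[ℂ] ℂ) : T → ℂ)) := by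
      refine ⟨s, t, hs0, ht0, hst, ?_⟩
      rw [← hfψ]
      funext d
      simp only [r, Pi.add_apply, Pi.smul_apply, LinearMap.smul_apply, tw_apply, smul_eq_mul, ev,
        hs, ht, Complex.real_smul]
      have h1 : (s : ℂ) ≠ 0 := by exact_mod_cast hs0.ne'
      have h2 : (t : ℂ) ≠ 0 := by exact_mod_cast ht0.ne'
      rw [mul_inv_cancel_left₀ h1, mul_inv_cancel_left₀ h2, ← map_add, ← add_mul, ← map_add, hbc,
        map_one, one_mul]
    have h3 := (hψ.2 ⟨_, st b hb, rfl⟩ ⟨_, st c hc', rfl⟩ hseg)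
    have h4 := congrFun (h3.trans hfψ.symm) d
    simp only [r, LinearMap.smul_apply, tw_apply, smul_eq_mul, ev] at h4
    rw [← h4, mul_inv_cancel_left₀ hb]
  -- unitaries
  have hu : ∀ u ∈ unitary A, ∀ d, ρ (α (u + star u) * β d) = ρ (α (u + star u)) * ρ (β d) := by
    intro u hu d
    have hu1 : star u * u = 1 := hu.1
    have ex : ∀ e : ℝ, e ^ 2 = 1 / 100 →
        star (((7 / 10 : ℝ) : ℂ) • (1 : A) + ((e : ℝ) : ℂ) • u) *
        (((7 / 10 : ℝ) : ℂ) • (1 : A) + ((e : ℝ) : ℂ) • u) =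
        ((1 / 2 : ℝ) : ℂ) • (1 : A) + ((7 / 10 * e : ℝ) : ℂ) • (u + star u) := by
      intro e he
      have he' : (e : ℂ) * e = 1 / 100 := by
        rw [← sq, ← Complex.ofReal_pow, he]; norm_num
      simp only [star_smul, star_add, star_one, RCLike.star_def, Complex.conj_ofReal,
        smul_mul_assoc, mul_smul_comm, add_mul, mul_add, one_mul, mul_one, hu1]
      simp only [smul_add, smul_smul, he']
      push_cast
      module
    have hne : ∀ e : ℝ, |e| = 1 / 10 → ρ (α (((1 / 2 : ℝ) : ℂ) • (1 : A) +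
        ((7 / 10 * e : ℝ) : ℂ) • (u + star u))) ≠ 0 := by
      intro e he h0
      simp only [map_add, map_smul, map_one, hρ.one, smul_eq_mul, mul_one] at h0
      have h1 : ‖ρ (α u) + ρ (α (star u))‖ ≤ 2 := by
        have a1 : ‖ρ (α u)‖ ≤ 1 := by
          have := hρ.cs (α u) 1
          rw [star_one, one_mul, hρ.nn_one, one_mul, nn, ← map_star, ← map_mul, hu1, map_one,
            hρ.one] at this
          simpa using this
        have a2 : ‖ρ (α (star u))‖ ≤ 1 := by rw [map_star, hρ.star_eq]; simpa using a1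
        have := norm_add_le (ρ (α u)) (ρ (α (star u)))
        linarith
      have h2 := congrArg norm (eq_neg_of_add_eq_zero_left h0)
      rw [norm_neg, norm_mul, Complex.norm_real, Complex.norm_real, Real.norm_of_nonneg
        (by positivity), Real.norm_eq_abs, abs_mul, abs_of_nonneg (by norm_num : (0:ℝ) ≤ 7 / 10),
        he] at h2
      linarith
    have h1 := split (((7 / 10 : ℝ) : ℂ) • (1 : A) + (((1 / 10 : ℝ)) : ℂ) • u)
      (((7 / 10 : ℝ) : ℂ) • (1 : A) + (((-1 / 10 : ℝ)) : ℂ) • u) (by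
        rw [ex _ (by norm_num), ex _ (by norm_num)]
        push_cast
        module) (by rw [ex _ (by norm_num)]; exact hne _ (by norm_num))
        (by rw [ex _ (by norm_num)]; exact hne _ (by norm_num [abs_div])) d
    rw [ex _ (by norm_num), map_add α, map_smul, map_smul, map_one] at h1
    simp only [add_mul, smul_mul_assoc, one_mul, map_add ρ, map_smul, smul_eq_mul, hρ.one] at h1
    push_cast at h1
    linear_combination (100 / 7 : ℂ) * h1
  intro a d
  have ha : a ∈ Submodule.span ℂ (unitary A : Set A) := by rw [CStarAlgebra.span_unitary]; trivial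
  induction ha using Submodule.span_induction with
  | mem u h =>
    have h1 := hu u h d
    have h2 := hu (Complex.I • u) (by
      constructor
      · have : star u * u = 1 := h.1
        simp [smul_smul, this]
      · have : u * star u = 1 := h.2
        simp [smul_smul, this]) d
    simp only [star_smul, RCLike.star_def, Complex.conj_I, map_add, map_smul, add_mul,
      smul_mul_assoc, smul_eq_mul] at h1 h2
    linear_combination (1 / 2 : ℂ) * h1 - (Complex.I / 2) * h2 +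
      (1 / 2 : ℂ) * (ρ (α u * β d) - ρ (α (star u) * β d) - ρ (α u) * ρ (β d) +
        ρ (α (star u)) * ρ (β d)) * Complex.I_mul_I
  | zero => simp
  | add x y _ _ hx hy => simp [add_mul, hx, hy]
  | smul c x _ hx => simp [hx, mul_assoc]

/-- the tensor product of simple algebras is simple -/
theorem TP.allF {A D T : Type} [CStarAlgebra A] [CStarAlgebra D] [CStarAlgebra T]
    {φ : A →ₗ[ℂ] ℂ} {τ : D →ₗ[ℂ] ℂ} {ω : T →ₗ[ℂ] ℂ} {α : A →⋆ₐ[ℂ] T} {β : D →⋆ₐ[ℂ] T}
    (h : TP φ τ ω α β) (hA : AllF A) (hD : AllF D) : AllF T := by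
  intro ψ0 h0 z hz
  obtain ⟨ρ, hρ, hρI, hp⟩ := exists_product α β h.comm {t | ∀ x y, ψ0 (x * t * y) = 0}
    (fun t ht x y x' y' => by
      have := ht (x' * x) (y * y')
      simpa [mul_assoc] using this) ψ0 h0 (fun t ht => by simpa using ht 1 1)
  have hφ' := hρ.comp α
  have hψ := hρ.comp β
  refine Faith.of_dn h.sω h.fω h.dn z ?_
  rintro ⟨x, u⟩ ⟨y, v⟩
  obtain ⟨Lx, hL⟩ := h.symm.slice (h.sφ.twL x y)
  have e1 : ∀ t, ω (α x * β u * t * (α y * β v)) = τ (u * Lx t * v) := by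
    refine h.dn.ext (h.sω.twL (α x * β u) (α y * β v)) ((h.sτ.twL u v).comp Lx) ?_
    rintro ⟨a, d⟩
    simp only [IsState.twL_apply, ContinuousLinearMap.comp_apply]
    rw [h.mul, h.mul, h.prod, (h.comm a d).eq, hL]
    simp
  rw [e1]
  have e2 : Lx z = 0 := by
    apply hD _ hψ
    intro u' v'
    obtain ⟨R, hR⟩ := h.slice (hψ.twL u' v')
    have e3 : R z = 0 := by
      apply hA _ hφ'
      intro x' y'
      have e4 : ∀ t, (ρ ∘ₗ α.toAlgHom.toLinearMap) (x' * R t * y') =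
          ρ (α x' * β u' * t * (α y' * β v')) := by
        refine h.dn.ext ((hφ'.twL x' y').comp R) (hρ.twL (α x' * β u') (α y' * β v')) ?_
        rintro ⟨a, d⟩
        simp only [IsState.twL_apply, ContinuousLinearMap.comp_apply]
        rw [h.mul, h.mul, hp, hR]
        simp [mul_comm]
      rw [e4]
      apply hρI
      intro x'' y''
      have := hz (x'' * (α x' * β u')) (α y' * β v' * y'')
      simpa [mul_assoc] using this
    have e5 : ∀ t, (ρ ∘ₗ β.toAlgHom.toLinearMap) (u' * Lx t * v') = φ (x * R t * y) := by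
      refine h.dn.ext ((hψ.twL u' v').comp Lx) ((h.sφ.twL x y).comp R) ?_
      rintro ⟨a, d⟩
      simp only [IsState.twL_apply, ContinuousLinearMap.comp_apply]
      rw [hR, (h.comm a d).eq, hL]
      simp [mul_comm]
    rw [e5, e3]; simp
  rw [e2]; simp

lemma psd_congr {ι : Type} {K K' : Matrix ι ι ℂ} (h : K.PosSemidef) (e : ∀ i j, K' i j = K i j) :
    K'.PosSemidef := by
  rw [show K' = K from Matrix.ext e]; exact h

lemma psd_step {ι : Type} {K1 K1' K2 K2' : ι → ι → ℂ} {C1 C2 : ℝ}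
    (h1 : (Matrix.of K1).PosSemidef) (h2 : (Matrix.of K2').PosSemidef)
    (h3 : (Matrix.of fun i j => ((C1 ^ 2 : ℝ) : ℂ) * K1 i j - K1' i j).PosSemidef)
    (h4 : (Matrix.of fun i j => ((C2 ^ 2 : ℝ) : ℂ) * K2 i j - K2' i j).PosSemidef) :
    (Matrix.of fun i j => (((C1 * C2) ^ 2 : ℝ) : ℂ) * (K1 i j * K2 i j) -
      K1' i j * K2' i j).PosSemidef := by
  refine psd_congr ((h3.hadamard h2).add ((h1.hadamard h4).smul
    (a := ((C1 ^ 2 : ℝ) : ℂ)) (by positivity))) fun p q => ?_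
  simp only [Matrix.of_apply, Matrix.add_apply, Matrix.hadamard_apply, Matrix.smul_apply,
    smul_eq_mul]
  push_cast
  ring

/-- existence of the tensor product -/
theorem exists_TP {A D : Type} [CStarAlgebra A] [CStarAlgebra D] {φ : A →ₗ[ℂ] ℂ} {τ : D →ₗ[ℂ] ℂ}
    (hφ : IsState φ) (hτ : IsState τ) (fφ : Faith φ) (fτ : Faith τ) :
    ∃ (T : Type) (_ : CStarAlgebra T) (ω : T →ₗ[ℂ] ℂ) (α : A →⋆ₐ[ℂ] T) (β : D →⋆ₐ[ℂ] T),
      TP φ τ ω α β := by
  have hw : PDF (fun p : A × D => φ p.1 * τ p.2) := by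
    refine ⟨by simp [hφ.one, hτ.one], (hφ.psd (fun p : A × D => p.1)).hadamard
      (hτ.psd (fun p : A × D => p.2)), fun m => ⟨‖m.1‖ * ‖m.2‖, ?_⟩⟩
    exact psd_step (hφ.psd (fun p : A × D => p.1)) (hτ.psd (fun p : A × D => m.2 * p.2))
      (hφ.psd_bound m.1 _ le_rfl (fun p : A × D => p.1))
      (hτ.psd_bound m.2 _ le_rfl (fun p : A × D => p.2))
  obtain ⟨T, _, L, ω, hs, hd, hω, hf, hL⟩ := machine hw
  obtain ⟨α, hα⟩ := exists_hom hφ hω hf (MonoidHom.id A) (fun m => rfl) (Dn.id A)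
    (L.comp (MonoidHom.inl A D)) (fun m => by
      simp only [MonoidHom.comp_apply, MonoidHom.inl_apply, ← hs]; congr 1; ext <;> simp)
    (fun d => L (1, d)) _ (hτ.psd id) (fun m n n' => by
      simp only [MonoidHom.comp_apply, MonoidHom.inl_apply, ← hs, ← map_mul, hL]
      simp) (hd.of_span fun p => subset_closure (Submodule.subset_span ⟨p, by
        simp only [MonoidHom.comp_apply, MonoidHom.inl_apply, ← map_mul]; simp⟩))
  obtain ⟨β, hβ⟩ := exists_hom hτ hω hf (MonoidHom.id D) (fun m => rfl) (Dn.id D)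
    (L.comp (MonoidHom.inr A D)) (fun m => by
      simp only [MonoidHom.comp_apply, MonoidHom.inr_apply, ← hs]; congr 1; ext <;> simp)
    (fun a => L (a, 1)) _ (hφ.psd id) (fun m n n' => by
      simp only [MonoidHom.comp_apply, MonoidHom.inr_apply, ← hs, ← map_mul, hL]
      simp [mul_comm]) (hd.of_span fun p => subset_closure (Submodule.subset_span ⟨(p.2, p.1), by
        simp only [MonoidHom.comp_apply, MonoidHom.inr_apply, ← map_mul]; simp⟩))
  have hα' : ∀ a, α a = L (a, 1) := hα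
  have hβ' : ∀ d, β d = L (1, d) := hβ
  have hm : ∀ a d, α a * β d = L (a, d) := fun a d => by rw [hα', hβ', ← map_mul]; simp
  refine ⟨T, inferInstance, ω, α, β, hφ, hτ, hω, fφ, fτ, hf, fun a d => ?_, ?_, fun a d => ?_⟩
  · show α a * β d = β d * α a
    rw [hm, hα', hβ', ← map_mul]; simp
  · simpa only [hm] using hd
  · rw [hm, hL]

end Pool.Agent.H846Z.ZO
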